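import Pool.Agent.Helper437.AbPow.Basic

/-! Abelian powers in the words `M' z (M z)^(r+1) M''` and in `a T₀ # T₁ # ⋯`. -/

namespace Pool.Agent.Helper437.AbPow

variable {β : Type} [DecidableEq β]

/-- the region word -/
def region (z : β) (m : ℕ) (M' M M'' : List β) : List β :=
  M' ++ ([z] ++ ((List.replicate m (M ++ [z])).flatten ++ M''))

theorem length_region {z : β} {m : ℕ} {M' M M'' : List β} {N : ℕ} (h' : M'.length = N)
    (h : M.length = N) (h'' : M''.length = N) :
    (region z m M' M M'').length + 1 = (m + 2) * (N + 1) := by
  unfold region
  simp only [List.length_append, List.length_flatten, List.map_replicate, List.sum_replicate,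
    List.length_singleton, h, h', h'', smul_eq_mul]
  ring

theorem count_take_repl {z : β} {M M'' : List β} {N : ℕ} (h : M.length = N) (m j X : ℕ)
    (hj : j ≤ m) (hX : X ≤ N) (b : β) :
    (((List.replicate m (M ++ [z])).flatten ++ M'').take (j * (N + 1) + X)).count b =
      j * (M.count b + [z].count b) + ((if j < m then M else M'').take X).count b := by
  induction m generalizing j with
  | zero =>
    obtain rfl : j = 0 := by omega
    simp
  | succ m ih =>
    rw [List.replicate_succ, List.flatten_cons]
    cases j with
    | zero =>
      rw [if_pos (Nat.succ_pos m), List.append_assoc, List.append_assoc, Nat.zero_mul,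
        Nat.zero_mul, Nat.zero_add, Nat.zero_add, List.take_append_of_le_length (by omega)]
    | succ j =>
      rw [List.append_assoc, count_take_append]
      have h1 : (M ++ [z]).length = N + 1 := by rw [List.length_append, h]; rfl
      have h2 : (j + 1) * (N + 1) + X = (N + 1) + (j * (N + 1) + X) := by ring
      rw [h2, List.take_of_length_le (by rw [h1]; omega), h1, Nat.add_sub_cancel_left,
        ih j (by omega), List.count_append]
      have h3 : (j + 1 < m + 1) ↔ j < m := by omega
      simp only [h3]
      ring

/-- the counting function of the region word -/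
def cR (z : β) (m : ℕ) (M' M M'' : List β) (j X : ℕ) (b : β) : ℕ :=
  match j with
  | 0 => (M'.take X).count b
  | j + 1 => M'.count b + [z].count b + j * (M.count b + [z].count b) +
      ((if j < m then M else M'').take X).count b

theorem count_take_region {z : β} {m : ℕ} {M' M M'' : List β} {N : ℕ} (h' : M'.length = N)
    (h : M.length = N) {j X : ℕ} (hj : j ≤ m + 1) (hX : X ≤ N) (b : β) :
    ((region z m M' M M'').take (j * (N + 1) + X)).count b = cR z m M' M M'' j X b := by
  unfold region
  cases j with
  | zero =>
    rw [Nat.zero_mul, Nat.zero_add, List.take_append_of_le_length (by omega)]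
    rfl
  | succ j =>
    have h2 : (j + 1) * (N + 1) + X = N + (1 + (j * (N + 1) + X)) := by ring
    rw [count_take_append, List.take_of_length_le (by rw [h', h2]; omega), h', h2,
      Nat.add_sub_cancel_left, count_take_append, List.take_of_length_le (by simp),
      List.length_singleton, Nat.add_sub_cancel_left, count_take_repl h m j X (by omega) hX]
    unfold cR
    simp only
    ring

theorem cR_z {z : β} {m : ℕ} {M' M M'' : List β} (h' : z ∉ M') (h : z ∉ M) (h'' : z ∉ M'')
    (j X : ℕ) : cR z m M' M M'' j X z = j := by
  have e : ∀ (w : List β), z ∉ w → ∀ p, (w.take p).count z = 0 := by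
    intro w hw p
    rw [List.count_eq_zero]
    exact fun hh => hw (List.mem_of_mem_take hh)
  cases j with
  | zero => exact e _ h' _
  | succ j =>
    unfold cR
    simp only
    rw [List.count_eq_zero_of_not_mem h', List.count_eq_zero_of_not_mem h]
    split_ifs
    · rw [e _ h]; simp; ring
    · rw [e _ h'']; simp; ring

/-- Powers in the region word come from a common cut. -/
theorem region_power {z : β} {r : ℕ} (hr : 1 ≤ r) {M' M M'' : List β} {N : ℕ}
    (l' : M'.length = N) (l : M.length = N) (l'' : M''.length = N)
    (h' : z ∉ M') (h : z ∉ M) (h'' : z ∉ M'')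
    (n' : ¬ HasPow (r + 2) M') (n : ¬ HasPow r M) (n'' : ¬ HasPow (r + 2) M'')
    (hp : HasPow (r + 2) (region z (r + 1) M' M M'')) :
    ∃ X ≤ N, (∀ b, (M''.take X).count b = (M.take X).count b) ∧
      ∀ b, M'.count b + (M.take X).count b = M.count b + (M'.take X).count b := by
  obtain ⟨L, hL, s, hs, V, hV⟩ := hp
  have hlen : (region z (r + 1) M' M M'').length + 1 = (r + 2 + 1) * (N + 1) :=
    length_region l' l l''
  -- the cut points
  let q : ℕ → ℕ := fun j => (s + j * L) / (N + 1)
  let X : ℕ → ℕ := fun j => (s + j * L) % (N + 1)
  have hXN : ∀ j, X j ≤ N := fun j => Nat.lt_succ_iff.1 (Nat.mod_lt _ (Nat.succ_pos N))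
  have hdec : ∀ j, s + j * L = q j * (N + 1) + X j := fun j => by
    have := Nat.div_add_mod (s + j * L) (N + 1)
    rw [Nat.mul_comm] at this
    exact this.symm
  have hq : ∀ j ≤ r + 2, q j ≤ r + 2 := by
    intro j hj
    have h1 : s + j * L ≤ s + (r + 2) * L := Nat.add_le_add_left (Nat.mul_le_mul_right _ hj) _
    have h2 : s + j * L < (r + 2 + 1) * (N + 1) := by omega
    exact Nat.lt_succ_iff.1 ((Nat.div_lt_iff_lt_mul (Nat.succ_pos N)).2 h2)
  have hcR : ∀ j < r + 2, ∀ b, cR z (r + 1) M' M M'' (q (j + 1)) (X (j + 1)) b =
      cR z (r + 1) M' M M'' (q j) (X j) b + V b := by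
    intro j hj b
    have := hV j hj b
    rw [hdec (j + 1), hdec j, count_take_region l' l (hq (j + 1) (by omega)) (hXN _),
      count_take_region l' l (hq j (by omega)) (hXN _)] at this
    exact this
  have hqs : ∀ j < r + 2, q (j + 1) = q j + V z := by
    intro j hj
    have := hcR j hj z
    rwa [cR_z h' h h'', cR_z h' h h''] at this
  have hqj : ∀ j ≤ r + 2, q j = q 0 + j * V z := by
    intro j
    induction j with
    | zero => intro _; simp
    | succ j ih =>
      intro hj
      rw [hqs j (by omega), ih (by omega)]
      ring
  rcases Nat.eq_zero_or_pos (V z) with hVz | hVz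
  · -- all cuts in one block
    exfalso
    have hq0 : ∀ j ≤ r + 2, q j = q 0 := fun j hj => by rw [hqj j hj, hVz]; simp
    have hXj : ∀ j ≤ r + 2, X j = X 0 + j * L := by
      intro j hj
      have h1 := hdec j
      have h2 := hdec 0
      rw [hq0 j hj] at h1
      rw [Nat.zero_mul, Nat.add_zero] at h2
      omega
    have hblock : ∀ B : List β, B.length = N → (∃ c : β → ℕ, ∀ Y ≤ N, ∀ b,
        cR z (r + 1) M' M M'' (q 0) Y b = c b + (B.take Y).count b) → HasPow (r + 2) B := by
      rintro B hB ⟨c, hc⟩
      refine ⟨L, hL, X 0, ?_, V, ?_⟩
      · rw [hB, ← hXj (r + 2) le_rfl]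
        exact hXN _
      · intro j hj b
        rw [← hXj (j + 1) (by omega), ← hXj j (by omega)]
        have := hcR j hj b
        rw [hq0 (j + 1) (by omega), hq0 j (by omega), hc _ (hXN _), hc _ (hXN _)] at this
        omega
    rcases hq0' : q 0 with _ | i
    · apply n'
      refine hblock M' l' ⟨fun _ => 0, fun Y _ b => ?_⟩
      rw [hq0']
      simp [cR]
    · by_cases hi : i < r + 1
      · have hM : HasPow (r + 2) M := by
          refine hblock M l ⟨fun b => M'.count b + [z].count b + i * (M.count b + [z].count b),
            fun Y _ b => ?_⟩
          rw [hq0']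
          simp [cR, hi]
        exact n (hM.mono (by omega))
      · apply n''
        refine hblock M'' l'' ⟨fun b => M'.count b + [z].count b + i * (M.count b + [z].count b),
            fun Y _ b => ?_⟩
        rw [hq0']
        simp [cR, hi]
  · -- one separator in every block
    have hk := hq (r + 2) le_rfl
    rw [hqj (r + 2) le_rfl] at hk
    have hV1 : V z = 1 := by
      by_contra hne
      have h2 : 2 ≤ V z := by omega
      have h3 : (r + 2) * 2 ≤ (r + 2) * V z := Nat.mul_le_mul_left _ h2
      omega
    have hq0 : q 0 = 0 := by rw [hV1] at hk; omega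
    have hqj' : ∀ j ≤ r + 2, q j = j := fun j hj => by rw [hqj j hj, hq0, hV1]; omega
    have hXs : ∀ j < r + 2, X (j + 1) + (N + 1) = X j + L := by
      intro j hj
      have h1 := hdec (j + 1)
      have h2 := hdec j
      rw [hqj' (j + 1) (by omega)] at h1
      rw [hqj' j (by omega)] at h2
      have h3 : (j + 1) * L = j * L + L := by ring
      have h4 : (j + 1) * (N + 1) = j * (N + 1) + (N + 1) := by ring
      omega
    have hmid : ∀ j, 1 ≤ j → j ≤ r → ∀ b, (M.take (X (j + 1))).count b +
        (M.count b + [z].count b) = (M.take (X j)).count b + V b := by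
      intro j hj1 hj2 b
      obtain ⟨i, rfl⟩ := Nat.exists_eq_succ_of_ne_zero (by omega : j ≠ 0)
      have := hcR (i + 1) (by omega) b
      rw [hqj' _ (by omega), hqj' _ (by omega)] at this
      simp only [cR, if_pos (by omega : i + 1 < r + 1), if_pos (by omega : i < r + 1)] at this
      have e : (i + 1) * (M.count b + [z].count b) =
        i * (M.count b + [z].count b) + (M.count b + [z].count b) := by ring
      change (M.take (X (i + 1 + 1))).count b + _ = (M.take (X (i + 1))).count b + _
      omega
    rcases Nat.lt_trichotomy L (N + 1) with hlt | heq | hgt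
    · -- negative drift
      exfalso
      apply n
      obtain ⟨e, he⟩ : ∃ e, N + 1 = L + e := ⟨N + 1 - L, by omega⟩
      have hepos : 0 < e := by omega
      have hXe : ∀ i ≤ r, X (r + 1 - i) = X (r + 1) + i * e := by
        intro i
        induction i with
        | zero => intro _; simp
        | succ i ih =>
          intro hi
          have h1 := ih (by omega)
          have h2 := hXs (r + 1 - (i + 1)) (by omega)
          rw [show r + 1 - (i + 1) + 1 = r + 1 - i by omega] at h2
          have h3 : (i + 1) * e = i * e + e := by ring
          omega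
      refine ⟨e, hepos, X (r + 1), ?_, fun b => M.count b + [z].count b - V b, ?_⟩
      · have := hXe r le_rfl
        rw [← this, l]
        exact hXN _
      · intro i hi b
        rw [← hXe (i + 1) (by omega), ← hXe i (by omega)]
        have h1 := hmid (r + 1 - (i + 1)) (by omega) (by omega) b
        rw [show r + 1 - (i + 1) + 1 = r + 1 - i by omega] at h1
        have h2 : (M.take (X (r + 1 - i))).count b ≤ (M.take (X (r + 1 - (i + 1)))).count b := by
          have h3 : X (r + 1 - i) ≤ X (r + 1 - (i + 1)) := by
            rw [hXe (i + 1) (by omega), hXe i (by omega)]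
            exact Nat.add_le_add_left (Nat.mul_le_mul_right _ (Nat.le_succ _)) _
          have e : (M.take (X (r + 1 - i))) = ((M.take (X (r + 1 - (i + 1)))).take
            (X (r + 1 - i))) := by rw [List.take_take, min_eq_left h3]
          rw [e]
          exact List.Sublist.count_le _ (List.take_sublist _ _)
        change _ = _ + (M.count b + [z].count b - V b)
        omega
    · -- no drift
      have hXX : ∀ j ≤ r + 2, X j = X 0 := by
        intro j
        induction j with
        | zero => intro _; rfl
        | succ j ih =>
          intro hj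
          have h1 := hXs j (by omega)
          have h2 := ih (by omega)
          omega
      refine ⟨X 0, hXN 0, ?_, ?_⟩
      · intro b
        have h1 := hcR (r + 1) (by omega) b
        have h2 := hmid 1 le_rfl hr b
        rw [hqj' (r + 1 + 1) (by omega), hqj' (r + 1) (by omega), hXX (r + 1 + 1) (by omega),
          hXX (r + 1) (by omega)] at h1
        rw [hXX (1 + 1) (by omega), hXX 1 (by omega)] at h2
        simp only [cR, lt_irrefl, if_false, if_pos (by omega : r < r + 1)] at h1
        have e : (r + 1) * (M.count b + [z].count b) =
          r * (M.count b + [z].count b) + (M.count b + [z].count b) := by ring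
        omega
      · intro b
        have h1 := hcR 0 (by omega) b
        have h2 := hmid 1 le_rfl hr b
        rw [hqj' (0 + 1) (by omega), hqj' 0 (by omega), hXX (0 + 1) (by omega)] at h1
        rw [hXX (1 + 1) (by omega), hXX 1 (by omega)] at h2
        simp only [cR, if_pos (by omega : 0 < r + 1), Nat.zero_mul, Nat.add_zero] at h1
        omega
    · -- positive drift
      exfalso
      apply n
      obtain ⟨e, he⟩ : ∃ e, L = N + 1 + e := ⟨L - (N + 1), by omega⟩
      have hepos : 0 < e := by omega
      have hXe : ∀ i ≤ r, X (1 + i) = X 1 + i * e := by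
        intro i
        induction i with
        | zero => intro _; simp
        | succ i ih =>
          intro hi
          have h1 := ih (by omega)
          have h2 := hXs (1 + i) (by omega)
          have h3 : (i + 1) * e = i * e + e := by ring
          rw [show 1 + i + 1 = 1 + (i + 1) by omega] at h2
          omega
      refine ⟨e, hepos, X 1, ?_, fun b => V b - (M.count b + [z].count b), ?_⟩
      · have := hXe r le_rfl
        rw [← this, l]
        exact hXN _
      · intro i hi b
        rw [← hXe (i + 1) (by omega), ← hXe i (by omega)]
        have h1 := hmid (1 + i) (by omega) (by omega) b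
        rw [show 1 + i + 1 = 1 + (i + 1) by omega] at h1
        have h2 : (M.take (X (1 + i))).count b ≤ (M.take (X (1 + (i + 1)))).count b := by
          have h3 : X (1 + i) ≤ X (1 + (i + 1)) := by
            rw [hXe (i + 1) (by omega), hXe i (by omega)]
            exact Nat.add_le_add_left (Nat.mul_le_mul_right _ (Nat.le_succ _)) _
          have e : (M.take (X (1 + i))) = ((M.take (X (1 + (i + 1)))).take
            (X (1 + i))) := by rw [List.take_take, min_eq_left h3]
          rw [e]
          exact List.Sublist.count_le _ (List.take_sublist _ _)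
        change _ = _ + (V b - (M.count b + [z].count b))
        omega

/-- A common cut gives a power. -/
theorem region_power_of {z : β} {r : ℕ} {M' M M'' : List β} {N : ℕ}
    (l' : M'.length = N) (l : M.length = N) (l'' : M''.length = N) {X : ℕ} (hX : X ≤ N)
    (h1 : ∀ b, (M''.take X).count b = (M.take X).count b)
    (h2 : ∀ b, M'.count b + (M.take X).count b = M.count b + (M'.take X).count b) :
    HasPowL (r + 2) (N + 1) (region z (r + 1) M' M M'') := by
  have hlen := length_region (z := z) (m := r + 1) l' l l''
  refine ⟨X, ?_, fun b => M.count b + [z].count b, ?_⟩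
  · have : (r + 1 + 2) * (N + 1) = (r + 2) * (N + 1) + (N + 1) := by ring
    omega
  · intro j hj b
    rw [Nat.add_comm X, Nat.add_comm X, count_take_region l' l (by omega) hX,
      count_take_region l' l (by omega) hX]
    cases j with
    | zero =>
      simp only [cR, if_pos (by omega : 0 < r + 1), Nat.zero_mul, Nat.add_zero]
      have := h2 b
      omega
    | succ i =>
      simp only [cR, if_pos (by omega : i < r + 1)]
      have e : (i + 1) * (M.count b + [z].count b) =
        i * (M.count b + [z].count b) + (M.count b + [z].count b) := by ring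
      by_cases hi : i + 1 < r + 1
      · rw [if_pos hi]
        omega
      · rw [if_neg hi, h1 b]
        omega

/-! ### The outer word -/

/-- the words `a T₀ # ⋯ T_{j-1} #` -/
def outer (a hs : β) (T : ℕ → List β) : ℕ → List β
  | 0 => [a]
  | j + 1 => outer a hs T j ++ (T j ++ [hs])

theorem length_outer_succ (a hs : β) (T : ℕ → List β) (j : ℕ) :
    (outer a hs T (j + 1)).length = (outer a hs T j).length + (T j).length + 1 := by
  change (outer a hs T j ++ (T j ++ [hs])).length = _
  rw [List.length_append, List.length_append, List.length_singleton]
  omega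

theorem outer_mono (a hs : β) (T : ℕ → List β) {i j : ℕ} (h : i ≤ j) :
    (outer a hs T i).length ≤ (outer a hs T j).length := by
  induction j, h using Nat.le_induction with
  | base => exact le_rfl
  | succ j _ ih => rw [length_outer_succ]; omega

theorem outer_prefix (a hs : β) (T : ℕ → List β) {i j : ℕ} (h : i ≤ j) :
    ∃ Q, outer a hs T j = outer a hs T i ++ Q := by
  induction j, h using Nat.le_induction with
  | base => exact ⟨[], by simp⟩
  | succ j _ ih =>
    obtain ⟨Q, hQ⟩ := ih
    exact ⟨Q ++ (T j ++ [hs]), by
      change outer a hs T j ++ (T j ++ [hs]) = _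
      rw [hQ, List.append_assoc]⟩

/-- counting `#` in prefixes -/
theorem count_outer {a hs : β} (hne : a ≠ hs) {T : ℕ → List β} (hT : ∀ j, hs ∉ T j) (j p : ℕ)
    (hp : p ≤ (outer a hs T j).length) :
    (∀ i, ((outer a hs T j).take p).count hs < i → i ≤ j → p < (outer a hs T i).length) ∧
    ((outer a hs T j).take p).count hs ≤ j ∧
    (∀ i, 1 ≤ i → i ≤ ((outer a hs T j).take p).count hs → (outer a hs T i).length ≤ p) := by
  induction j generalizing p with
  | zero =>
    have h0 : ((outer a hs T 0).take p).count hs = 0 := by
      rw [List.count_eq_zero]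
      intro hh
      have := List.mem_of_mem_take hh
      change hs ∈ [a] at this
      rw [List.mem_singleton] at this
      exact hne this.symm
    rw [h0]
    refine ⟨fun i h1 h2 => by omega, le_rfl, fun i h1 h2 => by omega⟩
  | succ j ih =>
    have e : outer a hs T (j + 1) = outer a hs T j ++ (T j ++ [hs]) := rfl
    have hl := length_outer_succ a hs T j
    by_cases h1 : p ≤ (outer a hs T j).length
    · rw [e, List.take_append_of_le_length h1]
      obtain ⟨i1, i2, i3⟩ := ih p h1
      refine ⟨fun i h2 h3 => ?_, by omega, i3⟩
      rcases Nat.lt_or_ge i (j + 1) with h4 | h4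
      · exact i1 i h2 (by omega)
      · obtain rfl : i = j + 1 := by omega
        omega
    · obtain ⟨i1, i2, i3⟩ := ih (outer a hs T j).length le_rfl
      have hfull : ((outer a hs T j).take (outer a hs T j).length).count hs = j := by
        refine le_antisymm i2 ?_
        by_contra hlt
        rw [not_le] at hlt
        have := i1 j hlt le_rfl
        omega
      rw [List.take_length] at hfull
      rw [e, count_take_append, List.take_of_length_le (by omega), hfull, count_take_append,
        List.count_eq_zero_of_not_mem (fun hh => hT j (List.mem_of_mem_take hh)), Nat.zero_add]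
      by_cases h2 : p = (outer a hs T (j + 1)).length
      · have h3 : p - (outer a hs T j).length - (T j).length = 1 := by omega
        rw [h3]
        have h4 : ([hs].take 1).count hs = 1 := by simp
        rw [h4]
        refine ⟨fun i h5 h6 => by omega, le_rfl, fun i h5 h6 => ?_⟩
        rw [h2]
        exact outer_mono _ _ _ h6
      · have h3 : p - (outer a hs T j).length - (T j).length = 0 := by omega
        rw [h3]
        simp only [List.take_zero, List.count_nil, Nat.add_zero]
        refine ⟨fun i h5 h6 => ?_, by omega, fun i h5 h6 => ?_⟩
        · obtain rfl : i = j + 1 := by omega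
          omega
        · have := outer_mono a hs T h6
          omega

/-- Powers in the outer word are inside one of the `T_i`. -/
theorem outer_power {a hs : β} (hne : a ≠ hs) {T : ℕ → List β} (hT : ∀ j, hs ∉ T j)
    (haT : ∀ j, a ∉ T j) (hgrow : ∀ j, 2 * (T j).length ≤ (T (j + 1)).length)
    (h0 : 1 ≤ (T 0).length) {k : ℕ} (hk : 10 ≤ k) {j : ℕ} {L : ℕ} (hL : 0 < L)
    (hp : HasPowL k L (outer a hs T j)) : ∃ i < j, HasPowL k L (T i) := by
  obtain ⟨s, hs', V, hV⟩ := hp
  have hlen : ∀ i, (outer a hs T i).length ≤ 3 * (T i).length := by
    intro i
    induction i with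
    | zero => change 1 ≤ _; omega
    | succ i ih =>
      rw [length_outer_succ]
      have := hgrow i
      have h1 : 1 ≤ (T i).length := by
        clear * - h0 hgrow
        induction i with
        | zero => exact h0
        | succ i ih => have := hgrow i; omega
      omega
  let c : ℕ → ℕ := fun i => ((outer a hs T j).take (s + i * L)).count hs
  have hc : ∀ i < k, c (i + 1) = c i + V hs := fun i hi => hV i hi hs
  have hple : ∀ i ≤ k, s + i * L ≤ (outer a hs T j).length := by
    intro i hi
    have := Nat.mul_le_mul_right L hi
    omega
  have hcnt := fun i (hi : i ≤ k) => count_outer hne hT j (s + i * L) (hple i hi)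
  rcases Nat.eq_zero_or_pos (V hs) with hV0 | hVpos
  · -- no `#` inside
    have hci : ∀ i ≤ k, c i = c 0 := by
      intro i
      induction i with
      | zero => intro _; rfl
      | succ i ih => intro hi; rw [hc i (by omega), hV0, ih (by omega)]; rfl
    -- the power does not contain `a`
    have hs1 : 1 ≤ s := by
      by_contra hs0
      have hs0 : s = 0 := by omega
      obtain ⟨Q, hQ⟩ := outer_prefix a hs T (Nat.zero_le j)
      have hcount : ∀ p, 1 ≤ p → ((outer a hs T j).take p).count a = 1 := by
        intro p hp
        have hQa : ∀ i, (outer a hs T i).count a = 1 := by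
          intro i
          induction i with
          | zero => simp [outer]
          | succ i ih =>
            change (outer a hs T i ++ (T i ++ [hs])).count a = 1
            rw [List.count_append, ih, List.count_append,
              List.count_eq_zero_of_not_mem (haT i)]
            simp [hne.symm]
        have h1 : ((outer a hs T j).take p).count a ≤ 1 := by
          rw [← hQa j]
          exact List.Sublist.count_le _ (List.take_sublist _ _)
        have h2 : 1 ≤ ((outer a hs T j).take p).count a := by
          rw [hQ]
          change 1 ≤ ((a :: Q).take p).count a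
          obtain ⟨p', rfl⟩ := Nat.exists_eq_succ_of_ne_zero (by omega : p ≠ 0)
          rw [List.take_succ_cons, List.count_cons_self]
          omega
        omega
      have h1 := hV 0 (by omega) a
      have h2 := hV 1 (by omega) a
      rw [hs0] at h1 h2
      rw [hcount (0 + (0 + 1) * L) (by omega)] at h1
      rw [hcount (0 + (1 + 1) * L) (by omega), hcount (0 + 1 * L) (by omega)] at h2
      simp at h1 h2
      omega
    -- inside `T n`
    have hjc : c 0 < j := by
      rcases Nat.lt_or_ge (c 0) j with h | h
      · exact h
      · exfalso
        have h1 : c 0 = j := le_antisymm (hcnt 0 (by omega)).2.1 h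
        have h2 : (outer a hs T j).length ≤ s + 0 * L := by
          rcases Nat.eq_zero_or_pos j with hj | hj
          · subst hj
            change 1 ≤ _
            omega
          · exact (hcnt 0 (by omega)).2.2 j hj (le_of_eq h1.symm)
        have h3 := hple k le_rfl
        have h4 : 0 < k * L := Nat.mul_pos (by omega) hL
        omega
    refine ⟨c 0, hjc, ?_⟩
    have hend : s + k * L < (outer a hs T (c 0 + 1)).length := by
      have := (hcnt k le_rfl).1 (c 0 + 1) (by
        have := hci k le_rfl
        change c k < c 0 + 1
        omega) (by omega)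
      exact this
    have hstart : (outer a hs T (c 0)).length ≤ s := by
      rcases Nat.eq_zero_or_pos (c 0) with h | h
      · rw [h]
        change 1 ≤ s
        exact hs1
      · have := (hcnt 0 (by omega)).2.2 (c 0) h le_rfl
        simpa using this
    obtain ⟨Q, hQ⟩ := outer_prefix a hs T (show c 0 + 1 ≤ j by omega)
    have e : outer a hs T j = outer a hs T (c 0) ++ T (c 0) ++ ([hs] ++ Q) := by
      rw [hQ]
      change (outer a hs T (c 0) ++ (T (c 0) ++ [hs])) ++ Q = _
      simp only [List.append_assoc]
    rw [length_outer_succ] at hend
    refine hasPowL_factor (P := outer a hs T (c 0)) (B := T (c 0)) (Q := [hs] ++ Q) (k := k)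
      (s := s) (V := V) 0 k (by omega) ?_ (by omega) (by rw [Nat.zero_add]; omega)
    rw [← e]
    exact hV
  · -- at least one `#` in every block: impossible
    exfalso
    have h1 : c (k - 2) + 2 ≤ c k := by
      have e1 := hc (k - 2) (by omega)
      have e2 := hc (k - 1) (by omega)
      rw [show k - 2 + 1 = k - 1 by omega] at e1
      rw [show k - 1 + 1 = k by omega] at e2
      omega
    have h2 := (hcnt k le_rfl).2.1
    change c k ≤ j at h2
    have h3 : s + (k - 2) * L < (outer a hs T (c (k - 2) + 1)).length :=
      (hcnt (k - 2) (by omega)).1 _ (Nat.lt_succ_self _) (by omega)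
    have h4 : (outer a hs T (c (k - 2) + 2)).length ≤ s + k * L :=
      (hcnt k le_rfl).2.2 _ (by omega) h1
    rw [length_outer_succ] at h4
    have h5 := hlen (c (k - 2) + 1)
    have h6 : k * L = (k - 2) * L + 2 * L := by
      obtain ⟨k', rfl⟩ : ∃ k', k = k' + 2 := ⟨k - 2, by omega⟩
      rw [Nat.add_sub_cancel]
      ring
    have h7 : 8 * L ≤ (k - 2) * L := Nat.mul_le_mul_right _ (by omega)
    omega

end Pool.Agent.Helper437.AbPow
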