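import Pool.Agent.Helper437.AbPow.Walk
import Pool.Agent.Helper437.AbPow.Region

/-! The morphic words with abelian powers controlled by a walk. -/

namespace Pool.Agent.Helper437.AbPow

variable {ι : Type} [DecidableEq ι] [Fintype ι] {m : ℕ}

/-- letters of the morphic word -/
inductive Ltr (C : Type) : Type
  | a : Ltr C
  | z : Ltr C
  | hs : Ltr C
  | u : Bool → C ⊕ Bool → Ltr C
  deriving DecidableEq

/-- letters after coding -/
inductive Cd (ι : Type) : Type
  | a : Cd ι
  | z : Cd ι
  | hs : Cd ι
  | nu : Cd ι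
  | fill : Bool → Cd ι
  | co : Option ι → Cd ι
  deriving DecidableEq

/-- the coding of one copy -/
def tau (s : Bool) : Ctl ι m ⊕ Bool → Cd ι
  | Sum.inl c =>
    match om c with
    | some (l, s') => if s = s' then .co l else .nu
    | none => .nu
  | Sum.inr b => .fill b

/-- the coding -/
def tc : Ltr (Ctl ι m) → Cd ι
  | .a => .a
  | .z => .z
  | .hs => .hs
  | .u s x => tau s x

omit [Fintype ι] [DecidableEq ι] in
theorem tau_some (s : Bool) {c : Ctl ι m} {l : Option ι} {s' : Bool} (h : om c = some (l, s')) :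
    tau s (Sum.inl c : Ctl ι m ⊕ Bool) = if s = s' then .co l else .nu := by
  simp only [tau, h]

omit [Fintype ι] [DecidableEq ι] in
theorem tau_none (s : Bool) {c : Ctl ι m} (h : om c = none) :
    tau s (Sum.inl c : Ctl ι m ⊕ Bool) = .nu := by
  simp only [tau, h]

theorem tau_inj (s : Bool) : Function.Injective (fun b => tau s (Sum.inr b : Ctl ι m ⊕ Bool)) := by
  intro b b' h
  simpa [tau] using h

theorem count_co (P : List (Ctl ι m ⊕ Bool)) (l : Option ι) :
    ((P.map (tau true)).count (.co l) : ℤ) = (P.map (tau false)).count (.co l) + wt P l := by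
  induction P with
  | nil => simp [wt_nil]
  | cons x P ih =>
    rw [List.map_cons, List.map_cons, List.count_cons, List.count_cons, wt_cons]
    push_cast
    rw [ih]
    have : ((if (tau true x == Cd.co l) = true then 1 else 0 : ℕ) : ℤ) =
        ((if (tau false x == Cd.co l) = true then 1 else 0 : ℕ) : ℤ) + wl x l := by
      rcases x with c | b
      · rcases ho : om c with _ | ⟨l', s'⟩
        · rw [tau_none true ho, tau_none false ho]
          simp [wl, ho]
        · rw [tau_some true ho, tau_some false ho]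
          simp only [wl, ho]
          cases s' with
          | true =>
            by_cases h : l' = l
            · subst h; simp
            · have h' : ¬ l = l' := fun e => h e.symm
              simp [h, h']
          | false =>
            by_cases h : l' = l
            · subst h; simp
            · have h' : ¬ l = l' := fun e => h e.symm
              simp [h, h']
      · simp [tau, wl]
    push_cast at this
    rw [this]
    ring

theorem count_total (s : Bool) (P : List (Ctl ι m ⊕ Bool)) :
    (P.map (tau s)).count .nu + ∑ l, (P.map (tau s)).count (.co l) =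
      (P.filter (fun x => x.isLeft)).length := by
  induction P with
  | nil => simp
  | cons x P ih =>
    rcases x with c | b
    · rw [List.filter_cons_of_pos (by rfl), List.length_cons, ← ih, List.map_cons,
        List.count_cons]
      simp only [List.count_cons]
      rw [Finset.sum_add_distrib]
      have : (if (tau s (Sum.inl c : Ctl ι m ⊕ Bool) == Cd.nu) = true then 1 else 0) +
          ∑ l, (if (tau s (Sum.inl c : Ctl ι m ⊕ Bool) == Cd.co l) = true then 1 else 0) = 1 := by
        rcases ho : om c with _ | ⟨l', s'⟩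
        · rw [tau_none s ho]
          simp
        · rw [tau_some s ho]
          by_cases h : s = s'
          · simp [h]
          · simp [h]
      omega
    · rw [List.filter_cons_of_neg (by simp), ← ih, List.map_cons, List.count_cons]
      simp only [List.count_cons]
      rw [Finset.sum_add_distrib]
      simp [tau]

theorem count_fill (b : Bool) (P : List (Ctl ι m ⊕ Bool)) :
    (P.map (tau true)).count (.fill b) = (P.map (tau false)).count (.fill b) := by
  induction P with
  | nil => rfl
  | cons x P ih =>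
    rw [List.map_cons, List.map_cons, List.count_cons, List.count_cons, ih]
    congr 1
    rcases x with c | b'
    · rcases ho : om c with _ | ⟨l', s'⟩
      · rw [tau_none true ho, tau_none false ho]
      · rw [tau_some true ho, tau_some false ho]
        cases s' <;> simp
    · rfl

theorem count_special (s : Bool) (P : List (Ctl ι m ⊕ Bool)) :
    (P.map (tau s)).count .a = 0 ∧ (P.map (tau s)).count .z = 0 ∧
      (P.map (tau s)).count .hs = 0 := by
  have : ∀ x : Ctl ι m ⊕ Bool, tau s x ≠ .a ∧ tau s x ≠ .z ∧ tau s x ≠ .hs := by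
    intro x
    rcases x with c | b
    · rcases ho : om c with _ | ⟨l', s'⟩
      · rw [tau_none s ho]
        simp
      · rw [tau_some s ho]
        by_cases h : s = s' <;> simp [h]
    · simp [tau]
  refine ⟨?_, ?_, ?_⟩ <;>
  · rw [List.count_eq_zero]
    intro h
    rw [List.mem_map] at h
    obtain ⟨x, -, hx⟩ := h
    have := this x
    tauto

theorem count_iff (P : List (Ctl ι m ⊕ Bool)) :
    (∀ x, (P.map (tau true)).count x = (P.map (tau false)).count x) ↔ ∀ l, wt P l = 0 := by
  constructor
  · intro h l
    have h1 := count_co P l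
    rw [h (.co l)] at h1
    omega
  · intro h
    have hco : ∀ l, (P.map (tau true)).count (.co l) = (P.map (tau false)).count (.co l) := by
      intro l
      have h1 := count_co P l
      rw [h l] at h1
      omega
    intro x
    cases x with
    | a => rw [(count_special true P).1, (count_special false P).1]
    | z => rw [(count_special true P).2.1, (count_special false P).2.1]
    | hs => rw [(count_special true P).2.2, (count_special false P).2.2]
    | nu =>
      have h1 := count_total true P
      have h2 := count_total false P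
      rw [Finset.sum_congr rfl (fun l _ => hco l)] at h1
      omega
    | fill b => exact count_fill b P
    | co l => exact hco l

/-! ### The words -/

variable (d : Data ι) (γ : ι → ℤ) (l0 : ι) (ν : ℕ)

/-- the base word without its first letter -/
def Yr (m : ℕ) (d : Data ι) (γ : ι → ℤ) (l0 : ι) (ν : ℕ) : List (Ctl ι m ⊕ Bool) :=
  (emPart d γ l0 ν).map Sum.inl ++ [Sum.inl (.loop ⟨m, Nat.lt_succ_self m⟩)]

omit [DecidableEq ι] [Fintype ι] in
theorem Yw_eq : Yw m d γ l0 ν = Sum.inl .b :: Yr m d γ l0 ν := rfl

/-- stage `j` of the three versions of the base word -/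
def MM (s : Bool) (j : ℕ) : List (Ltr (Ctl ι m)) := (HI (ch d) j (Yw m d γ l0 ν)).map (.u s)

/-- the left version -/
def ML (j : ℕ) : List (Ltr (Ctl ι m)) :=
  (HI (ch d) j ([Sum.inl .b] : List (Ctl ι m ⊕ Bool))).map (.u true) ++ (HI (ch d) j (Yr m d γ l0 ν)).map (.u false)

/-- the inserted words -/
def TT (m : ℕ) (d : Data ι) (γ : ι → ℤ) (l0 : ι) (ν r j : ℕ) : List (Ltr (Ctl ι m)) :=
  region .z (r + 1) (ML d γ l0 ν j) (MM d γ l0 ν false j) (MM d γ l0 ν true j)

/-- the morphism -/
def hL (m : ℕ) (d : Data ι) (γ : ι → ℤ) (l0 : ι) (ν r : ℕ) :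
    Ltr (Ctl ι m) → List (Ltr (Ctl ι m))
  | .a => .a :: (TT m d γ l0 ν r 0 ++ [.hs])
  | .z => [.z]
  | .hs => [.hs]
  | .u s x => (h0 (ch d) x).map (.u s)

omit [DecidableEq ι] [Fintype ι] in
theorem flatMap_u (r : ℕ) (s : Bool) (w : List (Ctl ι m ⊕ Bool)) :
    (w.map (.u s)).flatMap (hL m d γ l0 ν r) = (w.flatMap (h0 (ch d))).map (.u s) := by
  rw [List.flatMap_map, List.map_flatMap]
  rfl

omit [DecidableEq ι] [Fintype ι] in
theorem flatMap_TT (r j : ℕ) :
    (TT m d γ l0 ν r j).flatMap (hL m d γ l0 ν r) = TT m d γ l0 ν r (j + 1) := by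
  have e1 : (ML d γ l0 ν j).flatMap (hL m d γ l0 ν r) = ML d γ l0 ν (j + 1) := by
    unfold ML
    rw [List.flatMap_append, flatMap_u, flatMap_u, ← HI_succ', ← HI_succ']
  have e2 : ∀ s, (MM d γ l0 ν s j).flatMap (hL m d γ l0 ν r) = MM d γ l0 ν s (j + 1) := by
    intro s
    unfold MM
    rw [flatMap_u, ← HI_succ']
  have e3 : ([.z] : List (Ltr (Ctl ι m))).flatMap (hL m d γ l0 ν r) = [.z] := rfl
  have e4 : ∀ k, ((List.replicate k (MM d γ l0 ν false j ++ [.z])).flatten).flatMap
      (hL m d γ l0 ν r) = (List.replicate k (MM d γ l0 ν false (j + 1) ++ [.z])).flatten := by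
    intro k
    induction k with
    | zero => rfl
    | succ k ih =>
      rw [List.replicate_succ, List.flatten_cons, List.flatMap_append, ih, List.flatMap_append,
        e2, e3, List.replicate_succ, List.flatten_cons]
  unfold TT region
  rw [List.flatMap_append, List.flatMap_append, List.flatMap_append, e1, e2, e3, e4]

omit [DecidableEq ι] [Fintype ι] in
theorem iterate_a (r j : ℕ) :
    (fun w => w.flatMap (hL m d γ l0 ν r))^[j] [.a] = outer .a .hs (TT m d γ l0 ν r) j := by
  induction j with
  | zero => rfl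
  | succ j ih =>
    rw [Function.iterate_succ_apply', ih]
    clear ih
    induction j with
    | zero =>
      change [Ltr.a].flatMap (hL m d γ l0 ν r) = _
      rw [List.flatMap_singleton]
      rfl
    | succ j ih =>
      have e1 : outer .a .hs (TT m d γ l0 ν r) (j + 1) = outer .a .hs (TT m d γ l0 ν r) j ++
        (TT m d γ l0 ν r j ++ [.hs]) := rfl
      have e2 : outer .a .hs (TT m d γ l0 ν r) (j + 1 + 1) =
        outer .a .hs (TT m d γ l0 ν r) (j + 1) ++ (TT m d γ l0 ν r (j + 1) ++ [.hs]) := rfl
      change (outer .a .hs (TT m d γ l0 ν r) j).flatMap (hL m d γ l0 ν r) = _ at ih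
      change (outer .a .hs (TT m d γ l0 ν r) (j + 1)).flatMap (hL m d γ l0 ν r) = _
      rw [e1, List.flatMap_append, ih, List.flatMap_append, flatMap_TT, e2]
      rfl

theorem map_region {β β' : Type} (g : β → β') (z : β) (k : ℕ) (M' M M'' : List β) :
    (region z k M' M M'').map g = region (g z) k (M'.map g) (M.map g) (M''.map g) := by
  unfold region
  simp only [List.map_append, List.map_flatten, List.map_replicate, List.map_cons, List.map_nil]

theorem map_outer {β β' : Type} (g : β → β') (a hs : β) (T : ℕ → List β) (j : ℕ) :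
    (outer a hs T j).map g = outer (g a) (g hs) (fun i => (T i).map g) j := by
  induction j with
  | zero => rfl
  | succ j ih =>
    change (outer a hs T j ++ (T j ++ [hs])).map g = outer (g a) (g hs) _ j ++ _
    rw [List.map_append, ih, List.map_append]
    rfl

/-- coded versions -/
theorem coded_TT (r j : ℕ) : (TT m d γ l0 ν r j).map tc =
    region .z (r + 1) ((HI (ch d) j ([Sum.inl .b] : List (Ctl ι m ⊕ Bool))).map (tau true) ++
      (HI (ch d) j (Yr m d γ l0 ν)).map (tau false))
      ((HI (ch d) j (Yw m d γ l0 ν)).map (tau false))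
      ((HI (ch d) j (Yw m d γ l0 ν)).map (tau true)) := by
  unfold TT ML MM
  rw [map_region]
  simp only [List.map_append, List.map_map]
  rfl

omit [DecidableEq ι] [Fintype ι] in
theorem length_HI_mul (w : List (Ctl ι m ⊕ Bool)) (j : ℕ) :
    3 * (HI (ch d) j w).length ≤ (HI (ch d) (j + 1) w).length := by
  rw [HI_succ']
  generalize HI (ch d) j w = v
  induction v with
  | nil => simp
  | cons x v ih =>
    rw [List.flatMap_cons, List.length_append, List.length_cons]
    have : 3 ≤ (h0 (ch d) x).length := by
      rcases x with c | b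
      · unfold h0
        rw [List.length_cons, List.length_append]
        simp only [ff, List.length_cons, List.length_nil]
        omega
      · unfold h0
        rw [List.length_map]
        cases b <;> simp [th]
    omega

omit [DecidableEq ι] [Fintype ι] in
theorem length_HI_ge (w : List (Ctl ι m ⊕ Bool)) (hw : 1 ≤ w.length) (j : ℕ) :
    j + 1 ≤ (HI (ch d) j w).length := by
  induction j with
  | zero => simpa [HI_zero] using hw
  | succ j ih => have := length_HI_mul d w j; omega

/-- the words over the letters of the base word have bounded powers -/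
theorem np_word {β : Type} [DecidableEq β] {τ : Ctl ι m ⊕ Bool → β} {k : ℕ} (j : ℕ)
    (hk : ∀ c : Ctl ι m, ¬ HasPow k ((HI (ch d) j [Sum.inl c]).map τ)) (w : List (Ctl ι m)) :
    ¬ HasPow (w.length * k + 1) ((HI (ch d) j (w.map Sum.inl)).map τ) := by
  have key : ∀ L, 0 < L → ¬ HasPowL (w.length * k + 1) L
      ((HI (ch d) j (w.map Sum.inl)).map τ) := by
    intro L hL
    induction w with
    | nil =>
      rw [List.map_nil, HI_nil]
      apply not_hasPowL_of_length
      simpa using hL
    | cons c w ih =>
      have e : ((c :: w).map Sum.inl : List (Ctl ι m ⊕ Bool)) =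
        [Sum.inl c] ++ w.map Sum.inl := rfl
      rw [e, HI_append, List.map_append, List.length_cons]
      have e2 : (w.length + 1) * k + 1 = k + (w.length * k + 1) := by ring
      rw [e2]
      exact not_hasPowL_append (fun h => hk c ⟨L, hL, h⟩) ih
  rintro ⟨L, hL, h⟩
  exact key L hL h

/-- the base words as lists of control letters -/
def Yc (m : ℕ) (d : Data ι) (γ : ι → ℤ) (l0 : ι) (ν : ℕ) : List (Ctl ι m) :=
  emPart d γ l0 ν ++ [.loop ⟨m, Nat.lt_succ_self m⟩]

omit [DecidableEq ι] [Fintype ι] in
theorem Yr_eq : Yr m d γ l0 ν = (Yc m d γ l0 ν).map Sum.inl := by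
  unfold Yr Yc
  rw [List.map_append]
  rfl

instance [Finite ι] : Finite (Ctl ι m) := by
  let g : Fin 3 ⊕ Fin (m + 1) ⊕ (Fin 3 × ι × Bool) → Ctl ι m := fun x => match x with
    | Sum.inl 0 => .b
    | Sum.inl 1 => .km
    | Sum.inl 2 => .kp
    | Sum.inr (Sum.inl r) => .loop r
    | Sum.inr (Sum.inr (k, l, s)) => .em k l s
  refine Finite.of_surjective g ?_
  intro c
  cases c with
  | b => exact ⟨Sum.inl 0, rfl⟩
  | km => exact ⟨Sum.inl 1, rfl⟩
  | kp => exact ⟨Sum.inl 2, rfl⟩
  | loop r => exact ⟨Sum.inr (Sum.inl r), rfl⟩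
  | em k l s => exact ⟨Sum.inr (Sum.inr (k, l, s)), rfl⟩

/-- a uniform bound for the powers of single letters -/
theorem exists_uniform (m : ℕ) (d : Data ι) : ∃ k : ℕ, ∀ (s : Bool) (j : ℕ) (c : Ctl ι m),
    ¬ HasPow k ((HI (ch d) j [Sum.inl c]).map (tau s)) := by
  have h : ∀ (s : Bool) (c : Ctl ι m), ∃ k, ∀ j,
      ¬ HasPow k ((HI (ch d) j [Sum.inl c]).map (tau s)) :=
    fun s c => np_ctl rk (rk_ch d) (tau_inj s) c
  choose K hK using h
  obtain ⟨k, hk⟩ : ∃ k, ∀ x : Bool × Ctl ι m, K x.1 x.2 ≤ k := by
    obtain ⟨k, hk⟩ := Set.Finite.bddAbove (Set.finite_range (fun x : Bool × Ctl ι m => K x.1 x.2))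
    exact ⟨k, fun x => hk ⟨x, rfl⟩⟩
  exact ⟨k, fun s j c hp => hK s c j (hp.mono (hk (s, c)))⟩

/-- **Main combinatorial statement.** -/
theorem main_words {kk : ℕ} (hkk : ∀ (s : Bool) (j : ℕ) (c : Ctl ι m),
      ¬ HasPow kk ((HI (ch d) j [Sum.inl c]).map (tau s)))
    (hL : d.L.Nodup) (hall : ∀ l, l ∈ d.L)
    {r : ℕ} (hr : ((Yc m d γ l0 ν).length + 1) * kk + 8 ≤ r) :
    (∀ j L, 0 < L → HasPowL (r + 2) L
        (((fun w => w.flatMap (AbPow.hL m d γ l0 ν r))^[j] [.a]).map tc) →
      ∃ j, ∃ g ∈ ZZ d m j, ∀ l, γ l + (if l = l0 then (ν : ℤ) else 0) + g l = 0) ∧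
    (∀ j, (∃ g ∈ ZZ d m j, ∀ l, γ l + (if l = l0 then (ν : ℤ) else 0) + g l = 0) →
      ∃ L, j + 1 ≤ L ∧ HasPowL (r + 2) L
        (((fun w => w.flatMap (AbPow.hL m d γ l0 ν r))^[j + 1] [.a]).map tc)) := by
  classical
  -- the structure of the three versions
  have hv : ∀ j, ∃ v : List Bool, HI (ch d) j ([Sum.inl .b] : List (Ctl ι m ⊕ Bool)) =
    Sum.inl .b :: v.map Sum.inr := fun j => HI_leaf d j rfl
  have hsplit : ∀ j, HI (ch d) j (Yw m d γ l0 ν) = HI (ch d) j ([Sum.inl .b] : List (Ctl ι m ⊕ Bool)) ++
      HI (ch d) j (Yr m d γ l0 ν) := by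
    intro j
    rw [← HI_append]
    rfl
  -- the common tail
  have htail : ∀ j, ∃ R : List (Cd ι),
      (HI (ch d) j ([Sum.inl .b] : List (Ctl ι m ⊕ Bool))).map (tau true) ++ (HI (ch d) j (Yr m d γ l0 ν)).map (tau false) =
        .co none :: R ∧ (HI (ch d) j (Yw m d γ l0 ν)).map (tau false) = .nu :: R := by
    intro j
    obtain ⟨v, hv⟩ := hv j
    refine ⟨(v.map Sum.inr : List (Ctl ι m ⊕ Bool)).map (tau false) ++
      (HI (ch d) j (Yr m d γ l0 ν)).map (tau false), ?_, ?_⟩
    · rw [hv, List.map_cons, List.cons_append]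
      have e1 : tau true (Sum.inl .b : Ctl ι m ⊕ Bool) = .co none := rfl
      rw [e1]
      congr 2
      rw [List.map_map, List.map_map]
      rfl
    · rw [hsplit, hv, List.map_append, List.map_cons, List.cons_append]
      rfl
  have hYlen : (Yw m d γ l0 ν).length = (Yc m d γ l0 ν).length + 1 := by
    rw [Yw_eq, List.length_cons, Yr_eq, List.length_map]
  -- power-freeness
  have hYw : Yw m d γ l0 ν = (.b :: Yc m d γ l0 ν : List (Ctl ι m)).map Sum.inl := by
    rw [Yw_eq, Yr_eq]; rfl
  have npM : ∀ (s : Bool) (j : ℕ), ¬ HasPow r ((HI (ch d) j (Yw m d γ l0 ν)).map (tau s)) := by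
    intro s j hp
    rw [hYw] at hp
    refine np_word d j (hkk s j) _ (hp.mono ?_)
    rw [List.length_cons]
    omega
  have npL : ∀ j, ¬ HasPow (r + 2) ((HI (ch d) j ([Sum.inl .b] : List (Ctl ι m ⊕ Bool))).map (tau true) ++
      (HI (ch d) j (Yr m d γ l0 ν)).map (tau false)) := by
    rintro j ⟨L, hLp, hp⟩
    have h1 : ¬ HasPowL kk L ((HI (ch d) j ([Sum.inl .b] : List (Ctl ι m ⊕ Bool))).map
      (tau true)) := fun h => hkk true j .b ⟨L, hLp, h⟩
    have h2 : ¬ HasPowL ((Yc m d γ l0 ν).length * kk + 1) L
        ((HI (ch d) j (Yr m d γ l0 ν)).map (tau false)) := by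
      intro h
      rw [Yr_eq] at h
      exact np_word d j (hkk false j) _ ⟨L, hLp, h⟩
    refine not_hasPowL_append h1 h2 (hp.mono ?_)
    have : ((Yc m d γ l0 ν).length + 1) * kk = kk + (Yc m d γ l0 ν).length * kk := by ring
    omega
  -- lengths
  have hlenM : ∀ (s : Bool) (j : ℕ), ((HI (ch d) j (Yw m d γ l0 ν)).map (tau s)).length =
      (HI (ch d) j (Yw m d γ l0 ν)).length := fun s j => List.length_map _
  have hlenL : ∀ j, ((HI (ch d) j ([Sum.inl .b] : List (Ctl ι m ⊕ Bool))).map (tau true) ++
      (HI (ch d) j (Yr m d γ l0 ν)).map (tau false)).length =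
      (HI (ch d) j (Yw m d γ l0 ν)).length := by
    intro j
    rw [hsplit, List.length_append, List.length_append, List.length_map, List.length_map]
  have hN1 : ∀ j, j + 1 ≤ (HI (ch d) j (Yw m d γ l0 ν)).length := fun j =>
    length_HI_ge d _ (by rw [hYlen]; omega) j
  -- absence of `z`
  have hz : ∀ (s : Bool) (P : List (Ctl ι m ⊕ Bool)), Cd.z ∉ P.map (tau s) := by
    intro s P h
    have := (count_special s P).2.1
    rw [List.count_eq_zero] at this
    exact this h
  have hha : ∀ (s : Bool) (P : List (Ctl ι m ⊕ Bool)), Cd.a ∉ P.map (tau s) ∧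
      Cd.hs ∉ P.map (tau s) := by
    intro s P
    have h1 := (count_special s P).1
    have h2 := (count_special s P).2.2
    rw [List.count_eq_zero] at h1 h2
    exact ⟨h1, h2⟩
  -- the regions
  have hTlen : ∀ j, ((TT m d γ l0 ν r j).map tc).length + 1 =
      (r + 3) * ((HI (ch d) j (Yw m d γ l0 ν)).length + 1) := by
    intro j
    rw [coded_TT]
    exact length_region (hlenL j) (hlenM _ j) (hlenM _ j)
  have hmem : ∀ j (x : Cd ι), x ∈ (TT m d γ l0 ν r j).map tc → x ≠ .a ∧ x ≠ .hs := by
    intro j x hx
    rw [coded_TT] at hx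
    unfold region at hx
    rw [List.mem_append, List.mem_append, List.mem_append, List.mem_append] at hx
    have hz' : x = .z → x ≠ .a ∧ x ≠ .hs := by rintro rfl; simp
    have hP : ∀ (s : Bool) (P : List (Ctl ι m ⊕ Bool)), x ∈ P.map (tau s) →
        x ≠ .a ∧ x ≠ .hs := by
      intro s P h
      constructor
      · rintro rfl; exact (hha s P).1 h
      · rintro rfl; exact (hha s P).2 h
    rcases hx with (hx | hx) | hx | hx | hx
    · exact hP _ _ hx
    · exact hP _ _ hx
    · exact hz' (List.mem_singleton.1 hx)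
    · rw [List.mem_flatten] at hx
      obtain ⟨w, hw, hx⟩ := hx
      rw [List.eq_of_mem_replicate hw, List.mem_append] at hx
      rcases hx with hx | hx
      · exact hP _ _ hx
      · exact hz' (List.mem_singleton.1 hx)
    · exact hP _ _ hx
  have hiter : ∀ j, (((fun w => w.flatMap (AbPow.hL m d γ l0 ν r))^[j] [.a]).map tc) =
      outer (.a : Cd ι) .hs (fun i => (TT m d γ l0 ν r i).map tc) j := by
    intro j
    rw [iterate_a, map_outer]
    rfl
  constructor
  · intro j L hLp hp
    rw [hiter] at hp
    obtain ⟨i, -, hi⟩ := outer_power (by simp) (fun j hj => (hmem j _ hj).2 rfl)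
      (fun j hj => (hmem j _ hj).1 rfl) (by
        intro j
        have h1 := hTlen j
        have h2 := hTlen (j + 1)
        have h3 := length_HI_mul d (Yw m d γ l0 ν) j
        have h4 := hN1 j
        have h5 : (r + 3) * (3 * (HI (ch d) j (Yw m d γ l0 ν)).length + 1) ≤
          (r + 3) * ((HI (ch d) (j + 1) (Yw m d γ l0 ν)).length + 1) :=
          Nat.mul_le_mul_left _ (by omega)
        have h6 : (r + 3) * (2 * ((HI (ch d) j (Yw m d γ l0 ν)).length + 1)) ≤
          (r + 3) * (3 * (HI (ch d) j (Yw m d γ l0 ν)).length + 1) :=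
          Nat.mul_le_mul_left _ (by omega)
        have h7 : (r + 3) * (2 * ((HI (ch d) j (Yw m d γ l0 ν)).length + 1)) =
          2 * ((r + 3) * ((HI (ch d) j (Yw m d γ l0 ν)).length + 1)) := by ring
        omega) (by
        have h1 := hTlen 0
        have h4 := hN1 0
        have h5 : (r + 3) * 2 ≤ (r + 3) * ((HI (ch d) 0 (Yw m d γ l0 ν)).length + 1) :=
          Nat.mul_le_mul_left _ (by omega)
        omega) (by omega) hLp hp
    rw [coded_TT] at hi
    obtain ⟨X, hX, hX1, hX2⟩ := region_power (by omega) (hlenL i) (hlenM _ i) (hlenM _ i)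
      (by
        intro h
        rw [List.mem_append] at h
        rcases h with h | h
        · exact hz _ _ h
        · exact hz _ _ h) (hz _ _) (hz _ _) (npL i) (npM false i)
      (fun h => npM true i (h.mono (by omega))) ⟨L, hLp, hi⟩
    obtain ⟨R, hR1, hR2⟩ := htail i
    have hXpos : 1 ≤ X := by
      by_contra hX0
      have hX0 : X = 0 := by omega
      have := hX2 .nu
      rw [hX0, hR1, hR2] at this
      simp at this
    refine ⟨i, (walk d hL hall γ l0 ν i).1 ⟨X, hXpos, ?_⟩⟩
    rw [← count_iff]
    intro x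
    rw [List.map_take, List.map_take]
    exact hX1 x
  · intro j hg
    obtain ⟨p, hp, hw⟩ := (walk d hL hall γ l0 ν j).2 hg
    set N := (HI (ch d) j (Yw m d γ l0 ν)).length with hNdef
    refine ⟨N + 1, by have := hN1 j; omega, ?_⟩
    -- the cut
    have hw' : ∀ l, wt ((HI (ch d) j (Yw m d γ l0 ν)).take (min p N)) l = 0 := by
      intro l
      rcases le_total p N with h | h
      · rw [min_eq_left h]; exact hw l
      · rw [min_eq_right h, hNdef, List.take_length]
        have := hw l
        rwa [List.take_of_length_le h] at this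
    have h1 := (count_iff _).2 hw'
    obtain ⟨R, hR1, hR2⟩ := htail j
    have hpow := region_power_of (z := (.z : Cd ι)) (r := r) (hlenL j) (hlenM false j)
      (hlenM true j) (X := min p N) (min_le_right _ _) (by
        intro b
        have := h1 b
        rwa [List.map_take, List.map_take] at this) (by
        intro b
        have hmin : 1 ≤ min p N := le_min hp (by have := hN1 j; omega)
        obtain ⟨q, hq⟩ := Nat.exists_eq_succ_of_ne_zero (by omega : min p N ≠ 0)
        rw [hq, hR1, hR2, List.take_succ_cons, List.take_succ_cons]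
        simp only [List.count_cons]
        omega)
    rw [hiter]
    rw [← coded_TT, ← hNdef] at hpow
    obtain ⟨s, hs, V, hV⟩ := hpow
    have e : outer (.a : Cd ι) .hs (fun i => (TT m d γ l0 ν r i).map tc) (j + 1) =
      outer (.a : Cd ι) .hs (fun i => (TT m d γ l0 ν r i).map tc) j ++
        ((TT m d γ l0 ν r j).map tc ++ [.hs]) := rfl
    rw [e]
    set P := outer (.a : Cd ι) .hs (fun i => (TT m d γ l0 ν r i).map tc) j
    refine ⟨P.length + s, ?_, V, ?_⟩
    · rw [List.length_append, List.length_append]
      omega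
    · intro i hi b
      have h3 : (i + 1) * (N + 1) ≤ (r + 2) * (N + 1) := Nat.mul_le_mul_right _ hi
      have h4 : i * (N + 1) ≤ (i + 1) * (N + 1) := Nat.mul_le_mul_right _ (Nat.le_succ _)
      rw [← List.append_assoc, count_take_mid b (by omega) (by omega),
        count_take_mid b (by omega) (by omega)]
      have e1 : P.length + s + (i + 1) * (N + 1) - P.length = s + (i + 1) * (N + 1) := by omega
      have e2 : P.length + s + i * (N + 1) - P.length = s + i * (N + 1) := by omega
      rw [e1, e2, hV i hi b]
      ring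

end Pool.Agent.Helper437.AbPow
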