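import Mathlib.Data.List.Count
import Mathlib.Tactic

/-! Abelian powers in finite words: counting formulation, concatenation lemmas. -/

namespace Pool.Agent.Helper437.AbPow

variable {α : Type} [DecidableEq α]

/-- `w` has an abelian `k`-th power with period `L` as a factor -/
def HasPowL (k L : ℕ) (w : List α) : Prop :=
  ∃ s, s + k * L ≤ w.length ∧ ∃ V : α → ℕ, ∀ j < k, ∀ b,
    (w.take (s + (j + 1) * L)).count b = (w.take (s + j * L)).count b + V b

/-- `w` has an abelian `k`-th power as a factor -/
def HasPow (k : ℕ) (w : List α) : Prop := ∃ L, 0 < L ∧ HasPowL k L w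

theorem HasPowL.mono {k k' L : ℕ} (h : k' ≤ k) {w : List α} (hw : HasPowL k L w) :
    HasPowL k' L w := by
  obtain ⟨s, hs, V, hV⟩ := hw
  refine ⟨s, le_trans ?_ hs, V, fun j hj => hV j (lt_of_lt_of_le hj h)⟩
  exact Nat.add_le_add_left (Nat.mul_le_mul_right _ h) _

theorem HasPow.mono {k k' : ℕ} (h : k' ≤ k) {w : List α} (hw : HasPow k w) : HasPow k' w := by
  obtain ⟨L, hL, hw⟩ := hw
  exact ⟨L, hL, hw.mono h⟩

/-- the counting function of a prefix of a concatenation -/
theorem count_take_append (P Q : List α) (p : ℕ) (b : α) :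
    ((P ++ Q).take p).count b = (P.take p).count b + (Q.take (p - P.length)).count b := by
  rw [List.take_append, List.count_append]

theorem count_take_mid {P B Q : List α} {p : ℕ} (b : α) (h1 : P.length ≤ p)
    (h2 : p ≤ P.length + B.length) :
    ((P ++ B ++ Q).take p).count b = P.count b + (B.take (p - P.length)).count b := by
  rw [List.append_assoc, count_take_append, count_take_append, List.take_of_length_le h1]
  have : p - P.length - B.length = 0 := by omega
  rw [this]
  simp

/-- restriction of a power to a factor of the word -/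
theorem hasPowL_factor {P B Q : List α} {k L s : ℕ} {V : α → ℕ} (j0 k' : ℕ)
    (hk : j0 + k' ≤ k)
    (hV : ∀ j < k, ∀ b, ((P ++ B ++ Q).take (s + (j + 1) * L)).count b =
      ((P ++ B ++ Q).take (s + j * L)).count b + V b)
    (h1 : P.length ≤ s + j0 * L) (h2 : s + (j0 + k') * L ≤ P.length + B.length) :
    HasPowL k' L B := by
  refine ⟨s + j0 * L - P.length, ?_, V, ?_⟩
  · have : (j0 + k') * L = j0 * L + k' * L := by ring
    omega
  · intro j hj b
    have e1 : (j0 + (j + 1)) * L = j0 * L + (j + 1) * L := by ring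
    have e2 : (j0 + j) * L = j0 * L + j * L := by ring
    have e3 : (j + 1) * L ≤ k' * L := Nat.mul_le_mul_right _ hj
    have e4 : j * L ≤ (j + 1) * L := Nat.mul_le_mul_right _ (Nat.le_succ _)
    have e5 : (j0 + k') * L = j0 * L + k' * L := by ring
    have h := hV (j0 + j) (by omega) b
    have e6 : (j0 + j + 1) * L = j0 * L + (j + 1) * L := by ring
    rw [count_take_mid b (by omega) (by omega), count_take_mid b (by omega) (by omega)] at h
    have e7 : s + j0 * L - P.length + (j + 1) * L = s + (j0 + j + 1) * L - P.length := by omega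
    have e8 : s + j0 * L - P.length + j * L = s + (j0 + j) * L - P.length := by omega
    rw [e7, e8]
    omega

theorem not_hasPowL_of_length {k L : ℕ} {w : List α} (h : w.length < k * L) :
    ¬ HasPowL k L w := by
  rintro ⟨s, hs, -⟩
  omega

theorem not_hasPowL_append {k1 k2 L : ℕ} {w1 w2 : List α} (h1 : ¬ HasPowL k1 L w1)
    (h2 : ¬ HasPowL k2 L w2) : ¬ HasPowL (k1 + k2) L (w1 ++ w2) := by
  rintro ⟨s, hs, V, hV⟩
  rw [List.length_append] at hs
  have e1 : (k1 + k2) * L = k1 * L + k2 * L := by ring
  by_cases h : s + k1 * L ≤ w1.length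
  · apply h1
    refine hasPowL_factor (P := []) (B := w1) (Q := w2) (k := k1 + k2) (s := s) (V := V) 0 k1
      (by omega) ?_ (by simp) ?_
    · simpa using hV
    · rw [Nat.zero_add]
      simpa using h
  · apply h2
    refine hasPowL_factor (P := w1) (B := w2) (Q := []) (k := k1 + k2) (s := s) (V := V) k1 k2
      le_rfl ?_ (by omega) (by omega)
    simpa using hV

theorem not_hasPowL_left {k L : ℕ} {w1 w2 : List α} (h : ¬ HasPowL k L (w1 ++ w2)) :
    ¬ HasPowL k L w1 := by
  rintro ⟨s, hs, V, hV⟩
  apply h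
  refine ⟨s, by rw [List.length_append]; omega, V, ?_⟩
  intro j hj b
  have e3 : (j + 1) * L ≤ k * L := Nat.mul_le_mul_right _ hj
  have e4 : j * L ≤ (j + 1) * L := Nat.mul_le_mul_right _ (Nat.le_succ _)
  have := hV j hj b
  rw [List.take_append_of_le_length (by omega), List.take_append_of_le_length (by omega)]
  exact this

/-- A long block without fourth powers cannot be covered by a power. -/
theorem not_hasPowL_big {k L : ℕ} (hL : 0 < L) {P B Q : List α} (hB : ¬ HasPowL 4 L B)
    (hl : 5 * L ≤ B.length) (h1 : ¬ HasPowL k L (P ++ B)) (h2 : ¬ HasPowL k L (B ++ Q)) :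
    ¬ HasPowL k L (P ++ B ++ Q) := by
  rintro ⟨s, hs, V, hV⟩
  simp only [List.length_append] at hs
  by_cases ha : s + k * L ≤ P.length + B.length
  · apply h1
    refine hasPowL_factor (P := []) (B := P ++ B) (Q := Q) (k := k) (s := s) (V := V) 0 k
      (by omega) ?_ (by simp) ?_
    · simpa using hV
    · rw [Nat.zero_add]
      simpa using ha
  by_cases hb : P.length ≤ s
  · apply h2
    refine hasPowL_factor (P := P) (B := B ++ Q) (Q := []) (k := k) (s := s) (V := V) 0 k
      (by omega) ?_ (by omega) ?_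
    · simpa using hV
    · rw [Nat.zero_add, List.length_append]
      omega
  have hex : ∃ j, P.length ≤ s + j * L := ⟨P.length, by
    have := Nat.le_mul_of_pos_right P.length hL
    omega⟩
  classical
  obtain ⟨j0, hj0, hmin⟩ : ∃ j, P.length ≤ s + j * L ∧ ∀ i < j, ¬ P.length ≤ s + i * L :=
    ⟨Nat.find hex, Nat.find_spec hex, fun i hi => Nat.find_min hex hi⟩
  have hpos : j0 ≠ 0 := by
    rintro rfl
    rw [Nat.zero_mul, Nat.add_zero] at hj0
    exact hb hj0
  obtain ⟨i, rfl⟩ := Nat.exists_eq_succ_of_ne_zero hpos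
  have h3 := hmin i (Nat.lt_succ_self i)
  have e1 : (i.succ) * L = i * L + L := by rw [Nat.succ_mul]
  have e2 : (i.succ + 4) * L = i * L + 5 * L := by rw [Nat.succ_eq_add_one]; ring
  apply hB
  refine hasPowL_factor (P := P) (B := B) (Q := Q) (k := k) (s := s) (V := V) i.succ 4
    ?_ hV hj0 (by omega)
  by_contra hlt
  have h4 : k * L ≤ (i.succ + 4) * L := Nat.mul_le_mul_right _ (by omega)
  omega

end Pool.Agent.Helper437.AbPow
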