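import Pool.Agent.Helper437.AbPow.Basic

/-! Dekking's binary morphism `0 ↦ 011`, `1 ↦ 0001` avoids abelian fourth powers. -/

namespace Pool.Agent.Helper437.AbPow

/-- Dekking's morphism -/
def th : Bool → List Bool
  | false => [false, true, true]
  | true => [false, false, false, true]

/-- offsets -/
def D0 (r : ℕ) : ℤ := if r = 1 then 1 else if r = 2 then 2 else 0

/-- offsets -/
def D1 (r : ℕ) : ℤ := if r = 3 then -1 else 0

theorem th_prefix (v : List Bool) (p : ℕ) (hp : p ≤ (v.flatMap th).length) :
    ∃ i ≤ v.length, ∃ r : ℕ, r < 4 ∧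
      (((v.flatMap th).take p).count false + 2 * ((v.flatMap th).take p).count true) % 5 = r ∧
      (((v.flatMap th).take p).count false : ℤ) =
        (v.take i).count false + 3 * (v.take i).count true + D0 r ∧
      (((v.flatMap th).take p).count true : ℤ) =
        2 * (v.take i).count false + (v.take i).count true + D1 r := by
  induction v generalizing p with
  | nil =>
    refine ⟨0, le_rfl, 0, by omega, ?_⟩
    simp [D0, D1]
  | cons x v ih =>
    rw [List.flatMap_cons]
    rw [List.flatMap_cons, List.length_append] at hp
    by_cases h : p < (th x).length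
    · cases x with
      | false =>
        have h' : p < 3 := h
        rcases (by omega : p = 0 ∨ p = 1 ∨ p = 2) with rfl | rfl | rfl
        · refine ⟨0, by simp, 0, by omega, ?_⟩
          simp [D0, D1]
        · refine ⟨0, by simp, 1, by omega, ?_⟩
          simp [D0, D1, th]
        · refine ⟨1, by simp, 3, by omega, ?_⟩
          simp [D0, D1, th]
      | true =>
        have h' : p < 4 := h
        rcases (by omega : p = 0 ∨ p = 1 ∨ p = 2 ∨ p = 3) with rfl | rfl | rfl | rfl
        · refine ⟨0, by simp, 0, by omega, ?_⟩
          simp [D0, D1]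
        · refine ⟨0, by simp, 1, by omega, ?_⟩
          simp [D0, D1, th]
        · refine ⟨0, by simp, 2, by omega, ?_⟩
          simp [D0, D1, th]
        · refine ⟨1, by simp, 3, by omega, ?_⟩
          simp [D0, D1, th]
    · have h1 : (th x).length ≤ p := by omega
      obtain ⟨i, hi, r, hr, h2, h3, h4⟩ := ih (p - (th x).length) (by omega)
      refine ⟨i + 1, by simpa using hi, r, hr, ?_⟩
      rw [count_take_append, count_take_append, List.take_of_length_le h1, List.take_succ_cons]
      cases x with
      | false =>
        have e1 : (th false).count false = 1 := rfl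
        have e2 : (th false).count true = 2 := rfl
        rw [e1, e2]
        refine ⟨by omega, ?_, ?_⟩
        · push_cast
          rw [h3]
          simp
          ring
        · push_cast
          rw [h4]
          simp
          ring
      | true =>
        have e1 : (th true).count false = 3 := rfl
        have e2 : (th true).count true = 1 := rfl
        rw [e1, e2]
        refine ⟨by omega, ?_, ?_⟩
        · push_cast
          rw [h3]
          simp
          ring
        · push_cast
          rw [h4]
          simp
          ring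

theorem count_mono_take {α : Type} [DecidableEq α] (w : List α) {p q : ℕ} (h : p ≤ q) (b : α) :
    (w.take p).count b ≤ (w.take q).count b := by
  have : (w.take p) = ((w.take q).take p) := by rw [List.take_take, min_eq_left h]
  rw [this]
  exact List.Sublist.count_le _ (List.take_sublist _ _)

theorem count_bool (w : List Bool) : w.count false + w.count true = w.length := by
  induction w with
  | nil => rfl
  | cons x w ih =>
    cases x <;> simp <;> omega

theorem mod5_key (g S : ℕ) (h0 : S % 5 < 4) (h1 : (S + g) % 5 < 4) (h2 : (S + 2 * g) % 5 < 4)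
    (h3 : (S + 3 * g) % 5 < 4) (h4 : (S + 4 * g) % 5 < 4) : g % 5 = 0 := by
  rcases (by omega : g % 5 = 0 ∨ g % 5 = 1 ∨ g % 5 = 2 ∨ g % 5 = 3 ∨ g % 5 = 4) with
    h | h | h | h | h
  · exact h
  all_goals
    exfalso
    rcases (by omega : S % 5 = 0 ∨ S % 5 = 1 ∨ S % 5 = 2 ∨ S % 5 = 3) with
      h' | h' | h' | h' <;> omega

theorem th_reflects {v : List Bool} (h : HasPow 4 (v.flatMap th)) : HasPow 4 v := by
  obtain ⟨L, hL, s, hs, V, hV⟩ := h
  have hpj : ∀ j, j ≤ 4 → s + j * L ≤ (v.flatMap th).length := by
    intro j hj
    have := Nat.mul_le_mul_right L hj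
    omega
  choose! i hi r hr hr1 hr2 hr3 using fun j (hj : j ≤ 4) => th_prefix v (s + j * L) (hpj j hj)
  -- the residues agree
  set a : ℕ → ℕ := fun j => ((v.flatMap th).take (s + j * L)).count false with ha
  set c : ℕ → ℕ := fun j => ((v.flatMap th).take (s + j * L)).count true with hc
  have ea : ∀ j < 4, a (j + 1) = a j + V false := fun j hj => hV j hj false
  have ec : ∀ j < 4, c (j + 1) = c j + V true := fun j hj => hV j hj true
  have hra : ∀ j ≤ 4, (a j + 2 * c j) % 5 = r j := fun j hj => hr1 j hj
  have a1 := ea 0 (by omega)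
  have a2 := ea 1 (by omega)
  have a3 := ea 2 (by omega)
  have a4 := ea 3 (by omega)
  have c1 := ec 0 (by omega)
  have c2 := ec 1 (by omega)
  have c3 := ec 2 (by omega)
  have c4 := ec 3 (by omega)
  have r0 := hra 0 (by omega)
  have r1 := hra 1 (by omega)
  have r2 := hra 2 (by omega)
  have r3 := hra 3 (by omega)
  have r4 := hra 4 (by omega)
  have q0 := hr 0 (by omega)
  have q1 := hr 1 (by omega)
  have q2 := hr 2 (by omega)
  have q3 := hr 3 (by omega)
  have q4 := hr 4 (by omega)
  simp only [Nat.zero_add, Nat.reduceAdd] at a1 a2 a3 a4 c1 c2 c3 c4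
  have hmod : (V false + 2 * V true) % 5 = 0 := by
    refine mod5_key _ (a 0 + 2 * c 0) ?_ ?_ ?_ ?_ ?_
    · rw [r0]; exact q0
    · rw [show a 0 + 2 * c 0 + (V false + 2 * V true) = a 1 + 2 * c 1 by rw [a1, c1]; ring, r1]
      exact q1
    · rw [show a 0 + 2 * c 0 + 2 * (V false + 2 * V true) = a 2 + 2 * c 2 by
        rw [a2, c2, a1, c1]; ring, r2]
      exact q2
    · rw [show a 0 + 2 * c 0 + 3 * (V false + 2 * V true) = a 3 + 2 * c 3 by
        rw [a3, c3, a2, c2, a1, c1]; ring, r3]
      exact q3
    · rw [show a 0 + 2 * c 0 + 4 * (V false + 2 * V true) = a 4 + 2 * c 4 by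
        rw [a4, c4, a3, c3, a2, c2, a1, c1]; ring, r4]
      exact q4
  clear q0 q1 q2 q3 q4 r0 r1 r2 r3 r4 a2 a3 a4 c2 c3 c4
  have hrr : ∀ j ≤ 4, r j = r 0 := by
    intro j
    induction j with
    | zero => intro _; rfl
    | succ j ih =>
      intro hj
      rw [← ih (by omega), ← hra (j + 1) hj, ← hra j (by omega), ea j (by omega), ec j (by omega)]
      clear * - hmod
      omega
  -- the differences of the counts in `v`
  set m : ℕ → ℕ := fun j => (v.take (i j)).count false with hm
  set m' : ℕ → ℕ := fun j => (v.take (i j)).count true with hm'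
  have hA : ∀ j ≤ 4, (a j : ℤ) = m j + 3 * m' j + D0 (r 0) := by
    intro j hj
    have := hr2 j hj
    rw [hrr j hj] at this
    exact this
  have hC : ∀ j ≤ 4, (c j : ℤ) = 2 * m j + m' j + D1 (r 0) := by
    intro j hj
    have := hr3 j hj
    rw [hrr j hj] at this
    exact this
  have hd : ∀ j < 4, 5 * ((m (j + 1) : ℤ) - m j) = 3 * V true - V false ∧
      5 * ((m' (j + 1) : ℤ) - m' j) = 2 * V false - V true := by
    intro j hj
    have h1 := hA j (by omega)
    have h2 := hA (j + 1) (by omega)
    have h3 := hC j (by omega)
    have h4 := hC (j + 1) (by omega)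
    have h5 := ea j hj
    have h6 := ec j hj
    constructor <;> omega
  have hlen : ∀ j ≤ 4, m j + m' j = i j := by
    intro j hj
    have := count_bool (v.take (i j))
    rw [List.length_take, min_eq_left (hi j hj)] at this
    exact this
  have hVL : V false + V true = L := by
    have h1 := count_bool ((v.flatMap th).take (s + 0 * L))
    have h2 := count_bool ((v.flatMap th).take (s + 1 * L))
    rw [List.length_take, min_eq_left (hpj 0 (by omega))] at h1
    rw [List.length_take, min_eq_left (hpj 1 (by omega))] at h2
    have h3 : a 0 + c 0 = s + 0 * L := h1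
    have h4 : a 1 + c 1 = s + 1 * L := h2
    clear * - h3 h4 a1 c1
    omega
  have d0 := hd 0 (by omega)
  simp only [Nat.zero_add] at d0
  have dm : ∀ j < 4, (m (j + 1) : ℤ) = m j + (m 1 - m 0) := by
    intro j hj
    have := (hd j hj).1
    linarith [d0.1]
  have dm' : ∀ j < 4, (m' (j + 1) : ℤ) = m' j + (m' 1 - m' 0) := by
    intro j hj
    have := (hd j hj).2
    linarith [d0.2]
  have l0 := hlen 0 (by omega)
  have l1 := hlen 1 (by omega)
  have hlt : i 0 < i 1 := by
    by_contra hle
    rw [not_lt] at hle
    have h1 : m 1 ≤ m 0 := count_mono_take v hle false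
    have h2 : m' 1 ≤ m' 0 := count_mono_take v hle true
    clear * - h1 h2 d0 hVL hL
    omega
  have h1 : m 0 ≤ m 1 := count_mono_take v hlt.le false
  have h2 : m' 0 ≤ m' 1 := count_mono_take v hlt.le true
  have hij : ∀ j ≤ 4, i 0 + j * (i 1 - i 0) = i j := by
    intro j
    induction j with
    | zero => intro _; simp
    | succ j ih =>
      intro hj
      have e1 := ih (by omega)
      have e2 := hlen (j + 1) hj
      have e3 := hlen j (by omega)
      have e4 := dm j (by omega)
      have e5 := dm' j (by omega)
      rw [Nat.succ_mul]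
      clear * - e1 e2 e3 e4 e5 l0 l1 hlt
      omega
  refine ⟨i 1 - i 0, by omega, i 0, ?_, fun b => cond b (m' 1 - m' 0) (m 1 - m 0), ?_⟩
  · rw [hij 4 le_rfl]
    exact hi 4 le_rfl
  · intro j hj b
    rw [hij (j + 1) (by omega), hij j (by omega)]
    have e4 := dm j hj
    have e5 := dm' j hj
    cases b with
    | false =>
      change m (j + 1) = m j + (m 1 - m 0)
      clear * - e4 h1
      omega
    | true =>
      change m' (j + 1) = m' j + (m' 1 - m' 0)
      clear * - e5 h2
      omega

/-- iterates of Dekking's morphism -/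
def thIt (j : ℕ) (v : List Bool) : List Bool := (fun w => w.flatMap th)^[j] v

theorem no4 (j : ℕ) : ¬ HasPow 4 (thIt j [false, true]) := by
  induction j with
  | zero =>
    rintro ⟨L, hL, s, hs, -⟩
    have : ([false, true] : List Bool).length = 2 := rfl
    change s + 4 * L ≤ 2 at hs
    omega
  | succ j ih =>
    intro h
    apply ih
    unfold thIt at h ⊢
    rw [Function.iterate_succ_apply'] at h
    exact th_reflects h

end Pool.Agent.Helper437.AbPow
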