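import Pool.Agent.Helper437.AbPow.Walk
import Pool.Agent.Helper437.Dio.Sys

/-! From Diophantine sets to separable systems in increasing variables. -/

namespace Pool.Agent.Helper437.AbPow

open Finset Pool.Agent.Helper437.Dio

theorem mem_ZZ {ι : Type} (d : Data ι) (r j : ℕ) (g : ι → ℤ) :
    g ∈ ZZ d r j ↔ ∃ x : ℕ → ℕ, (∀ s < r, x s < x (s + 1)) ∧ x r < j ∧
      ∀ l, g l = ∑ s ∈ range (r + 1), FF d s (x s) l := by
  induction r generalizing j g with
  | zero =>
    constructor
    · rintro ⟨x, hx, hg⟩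
      exact ⟨fun _ => x, fun s hs => by omega, hx, fun l => by rw [hg l]; simp⟩
    · rintro ⟨x, -, hx, hg⟩
      exact ⟨x 0, hx, fun l => by rw [hg l]; simp⟩
  | succ r ih =>
    constructor
    · rintro ⟨y, hy, g', hg', hg⟩
      obtain ⟨x, h1, h2, h3⟩ := (ih y g').1 hg'
      refine ⟨fun s => if s = r + 1 then y else x s, ?_, ?_, ?_⟩
      · intro s hs
        by_cases h : s = r
        · subst h
          simpa using h2
        · simp only
          rw [if_neg (by omega), if_neg (by omega)]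
          exact h1 s (by omega)
      · simpa using hy
      · intro l
        rw [hg l, h3 l, Finset.sum_range_succ _ (r + 1), add_comm]
        simp only [if_true]
        congr 1
        refine Finset.sum_congr rfl fun s hs => ?_
        rw [if_neg (by rw [Finset.mem_range] at hs; omega)]
    · rintro ⟨x, h1, h2, h3⟩
      refine ⟨x (r + 1), h2, fun l => ∑ s ∈ range (r + 1), FF d s (x s) l, ?_, ?_⟩
      · exact (ih _ _).2 ⟨x, fun s hs => h1 s (by omega), h1 r (by omega), fun l => rfl⟩
      · intro l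
        rw [h3 l, Finset.sum_range_succ, add_comm]

/-- Diagonal quadratic systems over the integers. -/
theorem exists_diag (S : ℕ → Prop) (hS : Dioph {v : Unit → ℕ | S (v ())}) :
    ∃ (N : ℕ) (κ : Type) (_ : Fintype κ) (_ : DecidableEq κ) (P Q : κ → Fin N → ℤ) (γ : κ → ℤ)
      (l0 : κ), ∀ n : ℕ, S n ↔ ∃ a : Fin N → ℤ, ∀ l,
        γ l + (if l = l0 then ((4 * n : ℕ) : ℤ) else 0) +
          ∑ i, (P l i * a i ^ 2 + Q l i * a i) = 0 := by
  classical
  obtain ⟨V, _, f, L, hL⟩ := Sys.exists_system S hS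
  let W := V ⊕ Fin L.length
  let e : W ≃ Fin (Fintype.card W) := Fintype.equivFin W
  let κ := (Fin L.length × Bool) ⊕ Unit
  let u : W → W → ℤ := fun w0 w => if w = w0 then 1 else 0
  let P' : κ → W → ℤ := fun l w => match l with
    | Sum.inl (q, true) => (L.get q).e * (u (Sum.inr q) w - u (Sum.inl (L.get q).i) w -
        u (Sum.inl (L.get q).j) w)
    | _ => 0
  let Q' : κ → W → ℤ := fun l w => match l with
    | Sum.inl (q, true) => 2 * ((L.get q).a * u (Sum.inl (L.get q).k) w +
        (L.get q).b * u (Sum.inl (L.get q).l) w + (L.get q).c * u (Sum.inl (L.get q).m) w)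
    | Sum.inl (q, false) => u (Sum.inr q) w - u (Sum.inl (L.get q).i) w -
        u (Sum.inl (L.get q).j) w
    | Sum.inr _ => u (Sum.inl f) w
  let γ : κ → ℤ := fun l => match l with
    | Sum.inl (q, true) => 2 * (L.get q).d
    | Sum.inl (q, false) => 0
    | Sum.inr _ => -1
  have hu : ∀ (w0 : W) (t : W → ℤ), ∑ w, u w0 w * t w = t w0 := by
    intro w0 t
    simp only [u, ite_mul, one_mul, zero_mul]
    rw [Finset.sum_ite_eq' Finset.univ w0 t, if_pos (Finset.mem_univ _)]
  refine ⟨Fintype.card W, κ, inferInstance, inferInstance, fun l i => P' l (e.symm i),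
    fun l i => Q' l (e.symm i), γ, Sum.inr (), fun n => ?_⟩
  have hsum : ∀ (a : Fin (Fintype.card W) → ℤ) (l : κ),
      ∑ i, (P' l (e.symm i) * a i ^ 2 + Q' l (e.symm i) * a i) =
        ∑ w, (P' l w * (a (e w)) ^ 2 + Q' l w * a (e w)) := by
    intro a l
    rw [← Equiv.sum_comp e]
    simp
  have hsplit : ∀ (t : W → ℤ) (l : κ), ∑ w, (P' l w * (t w) ^ 2 + Q' l w * t w) =
      match l with
      | Sum.inl (q, true) => (L.get q).e * ((t (Sum.inr q)) ^ 2 - (t (Sum.inl (L.get q).i)) ^ 2 -
          (t (Sum.inl (L.get q).j)) ^ 2) + 2 * ((L.get q).a * t (Sum.inl (L.get q).k) +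
          (L.get q).b * t (Sum.inl (L.get q).l) + (L.get q).c * t (Sum.inl (L.get q).m))
      | Sum.inl (q, false) => t (Sum.inr q) - t (Sum.inl (L.get q).i) - t (Sum.inl (L.get q).j)
      | Sum.inr _ => t (Sum.inl f) := by
    intro t l
    rcases l with ⟨q, b⟩ | _
    · cases b with
      | true =>
        simp only [P', Q']
        have e1 : ∀ w, (L.get q).e * (u (Sum.inr q) w - u (Sum.inl (L.get q).i) w -
            u (Sum.inl (L.get q).j) w) * t w ^ 2 + 2 * ((L.get q).a * u (Sum.inl (L.get q).k) w +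
            (L.get q).b * u (Sum.inl (L.get q).l) w + (L.get q).c * u (Sum.inl (L.get q).m) w) *
            t w = (L.get q).e * (u (Sum.inr q) w * t w ^ 2) -
              (L.get q).e * (u (Sum.inl (L.get q).i) w * t w ^ 2) -
              (L.get q).e * (u (Sum.inl (L.get q).j) w * t w ^ 2) +
              2 * (L.get q).a * (u (Sum.inl (L.get q).k) w * t w) +
              2 * (L.get q).b * (u (Sum.inl (L.get q).l) w * t w) +
              2 * (L.get q).c * (u (Sum.inl (L.get q).m) w * t w) := fun w => by ring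
        rw [Finset.sum_congr rfl (fun w _ => e1 w)]
        simp only [Finset.sum_add_distrib, Finset.sum_sub_distrib, ← Finset.mul_sum, hu]
        ring
      | false =>
        simp only [P', Q', zero_mul, zero_add, sub_mul, Finset.sum_sub_distrib, hu]
    · simp only [P', Q', zero_mul, zero_add, hu]
  have h4 : S n ↔ ∃ x : V → ℤ, x f = 1 - 4 * n ∧ ∀ q ∈ L, q.Holds x := by
    rw [hL (1 - 4 * n)]
    constructor
    · intro h; exact ⟨n, h, rfl⟩
    · rintro ⟨n', h, e⟩
      have : n = n' := by omega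
      rwa [this]
  rw [h4]
  constructor
  · rintro ⟨x, hx, hq⟩
    let t : W → ℤ := Sum.elim x (fun q => x (L.get q).i + x (L.get q).j)
    refine ⟨fun i => t (e.symm i), fun l => ?_⟩
    rw [hsum]
    simp only [Equiv.symm_apply_apply]
    rw [hsplit]
    rcases l with ⟨q, b⟩ | _
    · cases b with
      | true =>
        have := hq (L.get q) (List.get_mem _ _)
        simp only [Sys.Eqn.Holds] at this
        simp only [γ, t, Sum.elim_inl, Sum.elim_inr, reduceCtorEq, if_false]
        linear_combination 2 * this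
      | false => simp [γ, t]
    · simp only [γ, t, Sum.elim_inl, if_true, hx]
      push_cast
      ring
  · rintro ⟨a, ha⟩
    let t : W → ℤ := fun w => a (e w)
    have ht : ∀ l, γ l + (if l = Sum.inr () then ((4 * n : ℕ) : ℤ) else 0) +
        ∑ w, (P' l w * (t w) ^ 2 + Q' l w * t w) = 0 := by
      intro l
      rw [← hsum]
      exact ha l
    refine ⟨fun v => t (Sum.inl v), ?_, ?_⟩
    · have := ht (Sum.inr ())
      have e5 := hsplit t (Sum.inr ())
      rw [e5] at this
      simp only [γ, if_true] at this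
      push_cast at this
      linarith
    · intro q hq
      obtain ⟨i, rfl⟩ := List.get_of_mem hq
      have h1 := ht (Sum.inl (i, true))
      have h2 := ht (Sum.inl (i, false))
      have e5 := hsplit t (Sum.inl (i, true))
      have e6 := hsplit t (Sum.inl (i, false))
      rw [e5] at h1
      rw [e6] at h2
      simp only [γ, reduceCtorEq, if_false] at h1 h2
      simp only [Sys.Eqn.Holds]
      have h3 : t (Sum.inr i) = t (Sum.inl (L.get i).i) + t (Sum.inl (L.get i).j) := by linarith
      rw [h3] at h1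
      have h5 : 2 * ((L.get i).e * (t (Sum.inl (L.get i).i) * t (Sum.inl (L.get i).j)) +
        (L.get i).a * t (Sum.inl (L.get i).k) + (L.get i).b * t (Sum.inl (L.get i).l) +
        (L.get i).c * t (Sum.inl (L.get i).m) + (L.get i).d) = 0 := by
        linear_combination h1
      exact (mul_eq_zero.1 h5).resolve_left (by norm_num)

/-- coefficients of `x_r ^ 2` in `a_i ^ 2` -/
def sqc (i r : ℕ) : ℤ :=
  if r = 0 then (2 * i + 2) * (2 * i + 3) else
    if r = 2 * i + 1 then 2 * i + 3 else if r = 2 * i + 2 then -(2 * i + 2) else 0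

/-- coefficients of `x_r` in `a_i` -/
def linc (i r : ℕ) : ℤ :=
  if r = 0 then -(2 * i + 2) else if r = 2 * i + 1 then 1 else 0

/-- coefficients of the spacing equation -/
def spc (i r : ℕ) : ℤ :=
  if r = 0 then -1 else if r = 2 * i + 1 then -1 else if r = 2 * i + 2 then 1 else 0

theorem sum_sparse (m i : ℕ) (hi : 2 * i + 2 ≤ m) (c : ℕ → ℤ) (A B C : ℤ)
    (h0 : c 0 = A) (h1 : c (2 * i + 1) = B) (h2 : c (2 * i + 2) = C)
    (h3 : ∀ r, r ≠ 0 → r ≠ 2 * i + 1 → r ≠ 2 * i + 2 → c r = 0) (t : ℕ → ℤ) :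
    ∑ r ∈ range (m + 1), c r * t r = A * t 0 + B * t (2 * i + 1) + C * t (2 * i + 2) := by
  have hsub : ({0, 2 * i + 1, 2 * i + 2} : Finset ℕ) ⊆ range (m + 1) := by
    intro r hr
    simp only [Finset.mem_insert, Finset.mem_singleton] at hr
    rw [Finset.mem_range]
    omega
  rw [← Finset.sum_subset hsub]
  · rw [Finset.sum_insert (by simp), Finset.sum_insert (by simp), Finset.sum_singleton, h0, h1, h2]
    ring
  · intro r _ hr
    simp only [Finset.mem_insert, Finset.mem_singleton, not_or] at hr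
    rw [h3 r hr.1 hr.2.1 hr.2.2, zero_mul]

theorem sum_sqc (m i : ℕ) (hi : 2 * i + 2 ≤ m) (t : ℕ → ℤ) :
    ∑ r ∈ range (m + 1), sqc i r * t r = (2 * i + 2) * (2 * i + 3) * t 0 +
      (2 * i + 3) * t (2 * i + 1) + -(2 * i + 2) * t (2 * i + 2) := by
  refine sum_sparse m i hi _ _ _ _ ?_ ?_ ?_ ?_ t
  · simp [sqc]
  · simp [sqc]
  · simp [sqc]
  · intro r h0 h1 h2
    simp [sqc, h0, h1, h2]

theorem sum_linc (m i : ℕ) (hi : 2 * i + 2 ≤ m) (t : ℕ → ℤ) :
    ∑ r ∈ range (m + 1), linc i r * t r = -(2 * i + 2) * t 0 + 1 * t (2 * i + 1) +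
      0 * t (2 * i + 2) := by
  refine sum_sparse m i hi _ _ _ _ ?_ ?_ ?_ ?_ t
  · simp [linc]
  · simp [linc]
  · simp [linc]
  · intro r h0 h1 h2
    simp [linc, h0, h1]

theorem sum_spc (m i : ℕ) (hi : 2 * i + 2 ≤ m) (t : ℕ → ℤ) :
    ∑ r ∈ range (m + 1), spc i r * t r = -1 * t 0 + -1 * t (2 * i + 1) + 1 * t (2 * i + 2) := by
  refine sum_sparse m i hi _ _ _ _ ?_ ?_ ?_ ?_ t
  · simp [spc]
  · simp [spc]
  · simp [spc]
  · intro r h0 h1 h2
    simp [spc, h0, h1, h2]

/-- Diophantine sets are given by the check weights of a fixed loop structure. -/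
theorem exists_loops (S : ℕ → Prop) (hS : Dioph {v : Unit → ℕ | S (v ())}) :
    ∃ (m : ℕ) (ι : Type) (_ : Fintype ι) (_ : DecidableEq ι) (d : Data ι) (γ : ι → ℤ) (l0 : ι),
      d.L.Nodup ∧ (∀ l, l ∈ d.L) ∧ ∀ n : ℕ, S n ↔ ∃ j, ∃ g ∈ ZZ d m j, ∀ l,
        γ l + (if l = l0 then ((4 * n : ℕ) : ℤ) else 0) + g l = 0 := by
  classical
  obtain ⟨N, κ, _, _, P, Q, γ', l0, h⟩ := exists_diag S hS
  let ι := κ ⊕ Fin N
  let d : Data ι :=
    { L := (Finset.univ : Finset ι).toList
      α := fun r l => match l with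
        | Sum.inl l => ∑ i : Fin N, P l i * sqc i r
        | Sum.inr _ => 0
      β := fun r l => match l with
        | Sum.inl l => ∑ i : Fin N, Q l i * linc i r
        | Sum.inr i => spc i r }
  let γ : ι → ℤ := fun l => match l with
    | Sum.inl l => γ' l
    | Sum.inr _ => 0
  refine ⟨2 * N, ι, inferInstance, inferInstance, d, γ, Sum.inl l0, Finset.nodup_toList _,
    fun l => by simp [d], fun n => ?_⟩
  -- the sums
  have hinl : ∀ (x : ℕ → ℕ) (l : κ), ∑ s ∈ range (2 * N + 1), FF d s (x s) (Sum.inl l) =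
      ∑ i : Fin N, (P l i * ((2 * i + 2) * (2 * i + 3) * (x 0 : ℤ) ^ 2 +
        (2 * i + 3) * (x (2 * i + 1) : ℤ) ^ 2 + -(2 * i + 2) * (x (2 * i + 2) : ℤ) ^ 2) +
        Q l i * (-(2 * i + 2) * (x 0 : ℤ) + 1 * (x (2 * i + 1) : ℤ) +
          0 * (x (2 * i + 2) : ℤ))) := by
    intro x l
    have e1 : ∀ s, FF d s (x s) (Sum.inl l) =
        ∑ i : Fin N, (P l i * (sqc i s * (x s : ℤ) ^ 2) + Q l i * (linc i s * (x s : ℤ))) := by
      intro s
      simp only [FF, d]
      rw [Finset.sum_mul, Finset.sum_mul, ← Finset.sum_add_distrib]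
      exact Finset.sum_congr rfl fun i _ => by ring
    rw [Finset.sum_congr rfl (fun s _ => e1 s), Finset.sum_comm]
    refine Finset.sum_congr rfl fun i _ => ?_
    rw [Finset.sum_add_distrib, ← Finset.mul_sum, ← Finset.mul_sum,
      sum_sqc (2 * N) i (by omega) (fun s => (x s : ℤ) ^ 2),
      sum_linc (2 * N) i (by omega) (fun s => (x s : ℤ))]
  have hinr : ∀ (x : ℕ → ℕ) (i : Fin N), ∑ s ∈ range (2 * N + 1), FF d s (x s) (Sum.inr i) =
      -1 * (x 0 : ℤ) + -1 * (x (2 * i + 1) : ℤ) + 1 * (x (2 * i + 2) : ℤ) := by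
    intro x i
    rw [← sum_spc (2 * N) i (by omega) (fun s => (x s : ℤ))]
    refine Finset.sum_congr rfl fun s _ => ?_
    simp only [FF, d]
    ring
  have hif : ∀ l : κ, (if (Sum.inl l : ι) = Sum.inl l0 then ((4 * n : ℕ) : ℤ) else 0) =
      if l = l0 then ((4 * n : ℕ) : ℤ) else 0 := by
    intro l
    by_cases hl : l = l0
    · rw [if_pos hl, if_pos (by rw [hl])]
    · rw [if_neg hl, if_neg (fun h' => hl (Sum.inl.inj h'))]
  rw [h n]
  constructor
  · rintro ⟨a, ha⟩
    let b : ℕ → ℤ := fun s => if h : s ≠ 0 ∧ (s - 1) / 2 < N then a ⟨(s - 1) / 2, h.2⟩ else 0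
    obtain ⟨M, hM⟩ : ∃ M : ℕ, ∀ s, 2 * |b s| < M := by
      refine ⟨2 * (∑ i : Fin N, |a i|).toNat + 1, fun s => ?_⟩
      have h0 : 0 ≤ ∑ i : Fin N, |a i| := Finset.sum_nonneg fun i _ => abs_nonneg _
      have h1 : |b s| ≤ ∑ i : Fin N, |a i| := by
        simp only [b]
        split_ifs with hs
        · exact Finset.single_le_sum (f := fun i => |a i|) (fun i _ => abs_nonneg _)
            (Finset.mem_univ _)
        · simpa using h0
      push_cast
      rw [Int.toNat_of_nonneg h0]
      linarith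
    let x : ℕ → ℕ := fun s => ((s + 1) * M + b s).toNat
    have hx : ∀ s, (x s : ℤ) = (s + 1) * M + b s := by
      intro s
      have h1 := hM s
      have h2 := abs_nonneg (b s)
      have h3 := neg_abs_le (b s)
      have h4 : (M : ℤ) ≤ (s + 1) * M := by nlinarith
      exact Int.toNat_of_nonneg (by linarith)
    have hb0 : b 0 = 0 := by simp [b]
    have hb1 : ∀ i : Fin N, b (2 * i + 1) = a i := by
      intro i
      have h1 : (2 * (i : ℕ) + 1 - 1) / 2 = i := by omega
      simp only [b]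
      rw [dif_pos ⟨by omega, by rw [h1]; exact i.2⟩]
      congr 1
      exact Fin.ext h1
    have hb2 : ∀ i : Fin N, b (2 * i + 2) = a i := by
      intro i
      have h1 : (2 * (i : ℕ) + 2 - 1) / 2 = i := by omega
      simp only [b]
      rw [dif_pos ⟨by omega, by rw [h1]; exact i.2⟩]
      congr 1
      exact Fin.ext h1
    refine ⟨x (2 * N) + 1, fun l => ∑ s ∈ range (2 * N + 1), FF d s (x s) l,
      (mem_ZZ _ _ _ _).2 ⟨x, ?_, Nat.lt_succ_self _, fun l => rfl⟩, ?_⟩
    · intro s _
      have h1 := hx s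
      have h2 := hx (s + 1)
      have h3 := hM s
      have h4 := hM (s + 1)
      have h5 := neg_abs_le (b (s + 1))
      have h6 := le_abs_self (b s)
      zify
      rw [h1, h2]
      push_cast
      linarith
    · intro l
      change γ l + _ + ∑ s ∈ range (2 * N + 1), FF d s (x s) l = 0
      rcases l with l | i
      · rw [hinl]
        have := ha l
        simp only [γ]
        rw [hif l]
        refine Eq.trans ?_ this
        congr 1
        refine Finset.sum_congr rfl fun i _ => ?_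
        rw [hx 0, hx (2 * i + 1), hx (2 * i + 2), hb0, hb1, hb2]
        push_cast
        ring
      · rw [hinr]
        simp only [γ, reduceCtorEq, if_false]
        rw [hx 0, hx (2 * i + 1), hx (2 * i + 2), hb0, hb1, hb2]
        push_cast
        ring
  · rintro ⟨j, g, hg, hz⟩
    obtain ⟨x, -, -, hx⟩ := (mem_ZZ _ _ _ _).1 hg
    refine ⟨fun i => (x (2 * i + 1) : ℤ) - (2 * i + 2) * x 0, fun l => ?_⟩
    have h1 := hz (Sum.inl l)
    rw [hx, hinl] at h1
    simp only [γ] at h1
    rw [hif l] at h1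
    refine Eq.trans ?_ h1
    congr 1
    refine Finset.sum_congr rfl fun i _ => ?_
    have h2 := hz (Sum.inr i)
    rw [hx, hinr] at h2
    simp only [γ, reduceCtorEq, if_false] at h2
    have h3 : (x (2 * i + 2) : ℤ) = x (2 * i + 1) + x 0 := by linarith
    rw [h3]
    ring

end Pool.Agent.Helper437.AbPow
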