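import Pool.Agent.Helper437.AbPow.Dekking

/-! Unipotent control letters interleaved with Dekking fillers: bounded abelian powers. -/

namespace Pool.Agent.Helper437.AbPow

variable {C : Type}

/-- the filler word -/
def ff : List (C ⊕ Bool) := [Sum.inr false, Sum.inr true]

/-- the morphism -/
def h0 (ch : C → List C) : C ⊕ Bool → List (C ⊕ Bool)
  | Sum.inl c => Sum.inl c :: (ff ++ (ch c).flatMap (fun d => Sum.inl d :: ff))
  | Sum.inr b => (th b).map Sum.inr

/-- iterates of the morphism -/
def HI (ch : C → List C) (j : ℕ) (w : List (C ⊕ Bool)) : List (C ⊕ Bool) :=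
  (fun w => w.flatMap (h0 ch))^[j] w

variable {ch : C → List C}

theorem HI_zero (w : List (C ⊕ Bool)) : HI ch 0 w = w := rfl

theorem HI_succ (j : ℕ) (w : List (C ⊕ Bool)) :
    HI ch (j + 1) w = HI ch j (w.flatMap (h0 ch)) := by
  unfold HI
  rw [Function.iterate_succ_apply]

theorem HI_succ' (j : ℕ) (w : List (C ⊕ Bool)) :
    HI ch (j + 1) w = (HI ch j w).flatMap (h0 ch) := by
  unfold HI
  rw [Function.iterate_succ_apply']

theorem HI_append (j : ℕ) (u v : List (C ⊕ Bool)) :
    HI ch j (u ++ v) = HI ch j u ++ HI ch j v := by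
  induction j generalizing u v with
  | zero => rfl
  | succ j ih => rw [HI_succ, HI_succ, HI_succ, List.flatMap_append, ih]

theorem HI_nil (j : ℕ) : HI ch j [] = [] := by
  induction j with
  | zero => rfl
  | succ j ih => rw [HI_succ]; exact ih

theorem HI_flatMap {γ : Type} (j : ℕ) (l : List γ) (g : γ → List (C ⊕ Bool)) :
    HI ch j (l.flatMap g) = l.flatMap (fun x => HI ch j (g x)) := by
  induction l with
  | nil => exact HI_nil j
  | cons x l ih => rw [List.flatMap_cons, List.flatMap_cons, HI_append, ih]

theorem HI_fill (j : ℕ) (v : List Bool) : HI ch j (v.map Sum.inr) = (thIt j v).map Sum.inr := by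
  induction j generalizing v with
  | zero => rfl
  | succ j ih =>
    rw [HI_succ]
    have e1 : (v.map Sum.inr).flatMap (h0 ch) = (v.flatMap th).map Sum.inr := by
      rw [List.flatMap_map, List.map_flatMap]
      rfl
    rw [e1, ih]
    unfold thIt
    rw [Function.iterate_succ_apply]

/-- the stage formula -/
theorem HI_stage (j : ℕ) (c : C) : HI ch (j + 1) [Sum.inl c] =
    HI ch j [Sum.inl c] ++ (HI ch j ff ++
      (ch c).flatMap (fun d => HI ch j [Sum.inl d] ++ HI ch j ff)) := by
  rw [HI_succ, List.flatMap_singleton]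
  have e1 : h0 ch (Sum.inl c) = [Sum.inl c] ++ (ff ++ (ch c).flatMap
      (fun d => [Sum.inl d] ++ ff)) := rfl
  rw [e1, HI_append, HI_append, HI_flatMap]
  simp only [HI_append]

/-- length of the fillers -/
def len (j : ℕ) : ℕ := (thIt j [false, true]).length

theorem length_ff (j : ℕ) : (HI ch j ff).length = len j := by
  have : (ff : List (C ⊕ Bool)) = [false, true].map Sum.inr := rfl
  rw [this, HI_fill, List.length_map]
  rfl

theorem length_flatMap_th (w : List Bool) :
    3 * w.length ≤ (w.flatMap th).length ∧ (w.flatMap th).length ≤ 4 * w.length := by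
  induction w with
  | nil => simp
  | cons x w ih =>
    rw [List.flatMap_cons, List.length_append, List.length_cons]
    have : 3 ≤ (th x).length ∧ (th x).length ≤ 4 := by cases x <;> simp [th]
    omega

theorem len_succ (j : ℕ) : 3 * len j ≤ len (j + 1) ∧ len (j + 1) ≤ 4 * len j := by
  unfold len thIt
  rw [Function.iterate_succ_apply']
  exact length_flatMap_th _

theorem len_zero : len 0 = 2 := rfl

theorem len_ge (j : ℕ) : j + 2 ≤ len j := by
  induction j with
  | zero => rw [len_zero]
  | succ j ih => have := (len_succ j).1; omega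

theorem len_mono {i j : ℕ} (h : i ≤ j) : len i ≤ len j := by
  induction j, h using Nat.le_induction with
  | base => exact le_rfl
  | succ j _ ih => have := (len_succ j).1; omega

theorem list_bound (l : List C)
    (h : ∀ d ∈ l, ∃ K, ∀ j, (HI ch j [Sum.inl d]).length ≤ K * len j) :
    ∃ K, ∀ j, (l.flatMap (fun d => HI ch j [Sum.inl d] ++ HI ch j ff)).length ≤ K * len j := by
  induction l with
  | nil => exact ⟨0, fun j => by simp⟩
  | cons d l ih =>
    obtain ⟨K1, h1⟩ := h d List.mem_cons_self
    obtain ⟨K2, h2⟩ := ih (fun d hd => h d (List.mem_cons_of_mem _ hd))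
    refine ⟨K1 + 1 + K2, fun j => ?_⟩
    rw [List.flatMap_cons, List.length_append, List.length_append, length_ff]
    have := h1 j
    have := h2 j
    have : (K1 + 1 + K2) * len j = K1 * len j + len j + K2 * len j := by ring
    omega

theorem length_bound (rk : C → ℕ) (hrk : ∀ c, ∀ d ∈ ch c, rk d < rk c) (c : C) :
    ∃ K, ∀ j, (HI ch j [Sum.inl c]).length ≤ K * len j := by
  induction hn : rk c using Nat.strong_induction_on generalizing c with
  | _ n ih =>
    obtain ⟨K, hK⟩ := list_bound (ch := ch) (ch c) (fun d hd => by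
      exact ih (rk d) (by rw [← hn]; exact hrk c d hd) d rfl)
    refine ⟨K + 1, fun j => ?_⟩
    induction j with
    | zero =>
      rw [HI_zero, len_zero]
      change 1 ≤ _
      omega
    | succ j ihj =>
      rw [HI_stage, List.length_append, List.length_append, length_ff]
      have h1 := hK j
      have h2 := (len_succ j).1
      have h3 : (K + 1) * (3 * len j) ≤ (K + 1) * len (j + 1) := Nat.mul_le_mul_left _ h2
      have h4 : (K + 1) * (3 * len j) = 3 * (K * len j) + 3 * len j := by ring
      have h5 : (K + 1) * len j = K * len j + len j := by ring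
      omega

section NP

variable {β : Type} [DecidableEq β] {τ : C ⊕ Bool → β}

theorem hasPowL_map {γ : Type} [DecidableEq γ] {g : γ → β} (hg : Function.Injective g) {k L : ℕ}
    {w : List γ} (h : HasPowL k L (w.map g)) : HasPowL k L w := by
  obtain ⟨s, hs, V, hV⟩ := h
  refine ⟨s, by simpa using hs, fun b => V (g b), ?_⟩
  intro j hj b
  have := hV j hj (g b)
  rw [← List.map_take, ← List.map_take, List.count_map_of_injective _ _ hg,
    List.count_map_of_injective _ _ hg] at this
  exact this

theorem fill_no4 (hτ : Function.Injective (fun b => τ (Sum.inr b))) (j L : ℕ) (hL : 0 < L) :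
    ¬ HasPowL 4 L ((HI ch j ff).map τ) := by
  intro h
  have : (ff : List (C ⊕ Bool)) = [false, true].map Sum.inr := rfl
  rw [this, HI_fill, List.map_map] at h
  exact no4 j ⟨L, hL, hasPowL_map hτ h⟩

theorem chain {k L : ℕ} (hL : 0 < L) {B : List β} (hB : ¬ HasPowL 4 L B) (hl : 5 * L ≤ B.length)
    (l : List (List β)) (hD : ∀ D ∈ l, ¬ HasPowL k L (B ++ (D ++ B))) {Q : List β}
    (hQ : ¬ HasPowL k L (B ++ Q)) (P : List β) (hP : ¬ HasPowL k L (P ++ B)) :
    ¬ HasPowL k L (P ++ B ++ (l.flatMap (fun D => D ++ B) ++ Q)) := by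
  induction l generalizing P with
  | nil =>
    rw [List.flatMap_nil, List.nil_append]
    exact not_hasPowL_big hL hB hl hP hQ
  | cons D l ih =>
    rw [List.flatMap_cons]
    have h1 : ¬ HasPowL k L (P ++ B ++ (D ++ B)) :=
      not_hasPowL_big hL hB hl hP (hD D List.mem_cons_self)
    have e : P ++ B ++ (D ++ B ++ l.flatMap (fun D => D ++ B) ++ Q) =
        (P ++ B ++ D) ++ B ++ (l.flatMap (fun D => D ++ B) ++ Q) := by
      simp only [List.append_assoc]
    rw [e]
    refine ih (fun D' hD' => hD D' (List.mem_cons_of_mem _ hD')) _ ?_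
    have e2 : P ++ B ++ D ++ B = P ++ B ++ (D ++ B) := by simp only [List.append_assoc]
    rw [e2]
    exact h1

theorem list_np (l : List C) (h : ∀ d ∈ l, ∃ k, ∀ j, ¬ HasPow k ((HI ch j [Sum.inl d]).map τ)) :
    ∃ k, ∀ d ∈ l, ∀ j, ¬ HasPow k ((HI ch j [Sum.inl d]).map τ) := by
  induction l with
  | nil => exact ⟨0, fun d hd => by simp at hd⟩
  | cons d l ih =>
    obtain ⟨k1, h1⟩ := h d List.mem_cons_self
    obtain ⟨k2, h2⟩ := ih (fun d hd => h d (List.mem_cons_of_mem _ hd))
    refine ⟨k1 + k2, fun d' hd' j hp => ?_⟩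
    rcases List.mem_cons.1 hd' with rfl | hd'
    · exact h1 j (hp.mono (by omega))
    · exact h2 d' hd' j (hp.mono (by omega))

theorem np_ctl (rk : C → ℕ) (hrk : ∀ c, ∀ d ∈ ch c, rk d < rk c)
    (hτ : Function.Injective (fun b => τ (Sum.inr b))) (c : C) :
    ∃ k, ∀ j, ¬ HasPow k ((HI ch j [Sum.inl c]).map τ) := by
  induction hn : rk c using Nat.strong_induction_on generalizing c with
  | _ n ih =>
    obtain ⟨k', hk'⟩ := list_np (τ := τ) (ch := ch) (ch c) (fun d hd => by
      exact ih (rk d) (by rw [← hn]; exact hrk c d hd) d rfl)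
    obtain ⟨K, hK⟩ := length_bound rk hrk c
    set k := 20 * (K + 1) + (k' + 8) with hk
    refine ⟨k, fun j hp => ?_⟩
    obtain ⟨L, hL, hp⟩ := hp
    have hex : ∃ i, 5 * L ≤ len i := ⟨5 * L, by have := len_ge (5 * L); omega⟩
    obtain ⟨i0, hi0, hmin⟩ : ∃ i, 5 * L ≤ len i ∧ ∀ i' < i, ¬ 5 * L ≤ len i' :=
      ⟨Nat.find hex, Nat.find_spec hex, fun i hi => Nat.find_min hex hi⟩
    have hne : i0 ≠ 0 := by
      rintro rfl
      rw [len_zero] at hi0
      omega
    obtain ⟨i1, rfl⟩ := Nat.exists_eq_succ_of_ne_zero hne
    have hlt : len (i1 + 1) < 20 * L := by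
      have h1 := hmin i1 (Nat.lt_succ_self _)
      have h2 := (len_succ i1).2
      omega
    -- small stages
    have small : ∀ i ≤ i1 + 1, ¬ HasPowL k L ((HI ch i [Sum.inl c] ++ HI ch i ff).map τ) := by
      intro i hi
      apply not_hasPowL_of_length
      rw [List.length_map, List.length_append, length_ff]
      have h1 := hK i
      have h2 : len i < 20 * L := lt_of_le_of_lt (len_mono hi) hlt
      have h3 : (K + 1) * len i ≤ (K + 1) * (20 * L) := Nat.mul_le_mul_left _ h2.le
      have h4 : (K + 1) * (20 * L) = 20 * (K + 1) * L := by ring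
      have h5 : k * L = 20 * (K + 1) * L + (k' + 8) * L := by rw [hk]; ring
      have h6 : 0 < (k' + 8) * L := Nat.mul_pos (by omega) hL
      have h7 : (K + 1) * len i = K * len i + len i := by ring
      omega
    have key : ∀ i, ¬ HasPowL k L ((HI ch i [Sum.inl c] ++ HI ch i ff).map τ) := by
      intro i
      induction i with
      | zero => exact small 0 (by omega)
      | succ i ihi =>
        by_cases hi : i + 1 ≤ i1 + 1
        · exact small _ hi
        · have hbig : 5 * L ≤ len i := le_trans hi0 (len_mono (by omega))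
          rw [HI_stage]
          set B := (HI ch i ff).map τ with hB
          have hB4 : ¬ HasPowL 4 L B := fill_no4 hτ i L hL
          have hBl : 5 * L ≤ B.length := by rw [hB, List.length_map, length_ff]; exact hbig
          have e : ((HI ch i [Sum.inl c] ++ (HI ch i ff ++ (ch c).flatMap
              (fun d => HI ch i [Sum.inl d] ++ HI ch i ff))) ++ HI ch (i + 1) ff).map τ =
              (HI ch i [Sum.inl c]).map τ ++ B ++
              (((ch c).map (fun d => (HI ch i [Sum.inl d]).map τ)).flatMap (fun D => D ++ B) ++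
                (HI ch (i + 1) ff).map τ) := by
            simp only [List.map_append, List.map_flatMap, List.flatMap_map, List.append_assoc, hB]
          rw [e]
          refine chain hL hB4 hBl _ ?_ ?_ _ ?_
          · intro D hD
            rw [List.mem_map] at hD
            obtain ⟨d, hd, rfl⟩ := hD
            intro hp'
            have h1 : ¬ HasPowL k' L ((HI ch i [Sum.inl d]).map τ) :=
              fun h => hk' d hd i ⟨L, hL, h⟩
            refine not_hasPowL_append hB4 (not_hasPowL_append h1 hB4) (hp'.mono ?_)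
            omega
          · intro hp'
            refine not_hasPowL_append hB4 (fill_no4 hτ (i + 1) L hL) (hp'.mono ?_)
            omega
          · rw [List.map_append] at ihi
            exact ihi
    have := key j
    rw [List.map_append] at this
    exact not_hasPowL_left this hp

end NP

end Pool.Agent.Helper437.AbPow
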