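import Pool.Agent.Helper437.AbPow.Scale

/-! Weights of prefixes: nested loops realise separable quadratic systems. -/

namespace Pool.Agent.Helper437.AbPow

variable {ι : Type} [DecidableEq ι] {m : ℕ}

/-- control letters -/
inductive Ctl (ι : Type) (m : ℕ) : Type
  | b : Ctl ι m
  | km : Ctl ι m
  | kp : Ctl ι m
  | loop : Fin (m + 1) → Ctl ι m
  | em : Fin 3 → ι → Bool → Ctl ι m
  deriving DecidableEq

/-- weights: `none` is the flag coordinate -/
def om : Ctl ι m → Option (Option ι × Bool)
  | .b => some (none, true)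
  | .km => some (none, false)
  | .kp => some (none, true)
  | .loop _ => none
  | .em k l s => if k = 0 then some (some l, s) else none

/-- the signed unit vector of a letter -/
def wl (x : Ctl ι m ⊕ Bool) (l : Option ι) : ℤ :=
  match x with
  | Sum.inl c =>
    match om c with
    | some (l', s) => if l = l' then (if s then 1 else -1) else 0
    | none => 0
  | Sum.inr _ => 0

/-- the weight of a word -/
def wt (P : List (Ctl ι m ⊕ Bool)) (l : Option ι) : ℤ := (P.map (fun x => wl x l)).sum

theorem wt_nil (l : Option ι) : wt ([] : List (Ctl ι m ⊕ Bool)) l = 0 := rfl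

theorem wt_append (P Q : List (Ctl ι m ⊕ Bool)) (l : Option ι) :
    wt (P ++ Q) l = wt P l + wt Q l := by
  unfold wt
  rw [List.map_append, List.sum_append]

theorem wt_cons (x : Ctl ι m ⊕ Bool) (Q : List (Ctl ι m ⊕ Bool)) (l : Option ι) :
    wt (x :: Q) l = wl x l + wt Q l := by
  unfold wt
  rw [List.map_cons, List.sum_cons]

theorem wt_fill (v : List Bool) (l : Option ι) :
    wt (v.map Sum.inr : List (Ctl ι m ⊕ Bool)) l = 0 := by
  induction v with
  | nil => rfl
  | cons x v ih => rw [List.map_cons, wt_cons, ih]; rfl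

/-- the weights of the prefixes with flag `-1` -/
def CW (w : List (Ctl ι m ⊕ Bool)) : Set (ι → ℤ) :=
  {g | ∃ p, wt (w.take p) none = -1 ∧ ∀ i, wt (w.take p) (some i) = g i}

theorem CW_append {A B : List (Ctl ι m ⊕ Bool)} (hA : wt A none = 0) :
    CW (A ++ B) = CW A ∪ {g | ∃ g' ∈ CW B, ∀ i, g i = wt A (some i) + g' i} := by
  ext g
  constructor
  · rintro ⟨p, h1, h2⟩
    by_cases hp : p ≤ A.length
    · left
      rw [List.take_append_of_le_length hp] at h1 h2
      exact ⟨p, h1, h2⟩
    · right
      rw [List.take_append, List.take_of_length_le (by omega : A.length ≤ p)] at h1 h2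
      refine ⟨fun i => g i - wt A (some i), ⟨p - A.length, ?_, ?_⟩, ?_⟩
      · rw [wt_append, hA] at h1
        linarith
      · intro i
        have := h2 i
        rw [wt_append] at this
        linarith
      · intro i; ring
  · rintro (⟨p, h1, h2⟩ | ⟨g', ⟨p, h1, h2⟩, h3⟩)
    · refine ⟨min p A.length, ?_, ?_⟩
      · rw [List.take_append_of_le_length (min_le_right _ _)]
        have e : A.take (min p A.length) = A.take p := by
          rcases le_total p A.length with h | h
          · rw [min_eq_left h]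
          · rw [min_eq_right h, List.take_length, List.take_of_length_le h]
        rw [e]; exact h1
      · intro i
        rw [List.take_append_of_le_length (min_le_right _ _)]
        have e : A.take (min p A.length) = A.take p := by
          rcases le_total p A.length with h | h
          · rw [min_eq_left h]
          · rw [min_eq_right h, List.take_length, List.take_of_length_le h]
        rw [e]; exact h2 i
    · refine ⟨A.length + p, ?_, ?_⟩
      · rw [List.take_append, List.take_of_length_le (by omega : A.length ≤ A.length + p),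
          Nat.add_sub_cancel_left, wt_append, hA, h1]
        ring
      · intro i
        rw [List.take_append, List.take_of_length_le (by omega : A.length ≤ A.length + p),
          Nat.add_sub_cancel_left, wt_append, h2 i, h3 i]

/-- letters without flag -/
def Neut (x : Ctl ι m ⊕ Bool) : Prop := wl x none = 0

theorem wt_none_of_neut {w : List (Ctl ι m ⊕ Bool)} (h : ∀ x ∈ w, Neut x) : wt w none = 0 := by
  induction w with
  | nil => rfl
  | cons x w ih =>
    rw [wt_cons, ih (fun y hy => h y (List.mem_cons_of_mem _ hy)), h x List.mem_cons_self]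
    rfl

theorem CW_neut {w : List (Ctl ι m ⊕ Bool)} (h : ∀ x ∈ w, Neut x) : CW w = ∅ := by
  ext g
  constructor
  · rintro ⟨p, h1, -⟩
    rw [wt_none_of_neut (fun x hx => h x (List.mem_of_mem_take hx))] at h1
    exact absurd h1 (by norm_num)
  · intro h; exact h.elim

/-- emission letters -/
def IsEm (x : Ctl ι m ⊕ Bool) : Prop :=
  match x with
  | Sum.inl (.em _ _ _) => True
  | Sum.inl _ => False
  | Sum.inr _ => True

theorem IsEm.neut {x : Ctl ι m ⊕ Bool} (h : IsEm x) : Neut x := by
  rcases x with c | b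
  · cases c with
    | em k l s =>
      unfold Neut wl om
      by_cases hk : k = 0 <;> simp [hk]
    | _ => exact h.elim
  · rfl

/-- words of emission letters -/
def emit (k : Fin 3) (L : List ι) (v : ι → ℤ) : List (Ctl ι m) :=
  L.flatMap (fun l => List.replicate (v l).natAbs (.em k l (decide (0 ≤ v l))))

/-- the data of a separable system -/
structure Data (ι : Type) where
  L : List ι
  α : ℕ → ι → ℤ
  β : ℕ → ι → ℤ

/-- previous row -/
def prev (f : ℕ → ι → ℤ) (r : ℕ) : ι → ℤ := if r = 0 then 0 else f (r - 1)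

/-- the emission word of level `r` -/
def EE (d : Data ι) (r : ℕ) : List (Ctl ι m) :=
  emit 0 d.L (fun l => d.α r l + d.β r l) ++
  (emit 1 d.L (fun l => 2 * d.α r l - (prev d.α r l + prev d.β r l)) ++
  emit 2 d.L (fun l => -2 * prev d.α r l))

/-- children -/
def ch (d : Data ι) : Ctl ι m → List (Ctl ι m)
  | .b => []
  | .km => []
  | .kp => []
  | .loop r => (if h : r.val = 0 then [.km, .kp] else [.loop ⟨r.val - 1, by omega⟩]) ++ EE d r.val
  | .em k l s => if h : k.val = 0 then [] else [.em ⟨k.val - 1, by omega⟩ l s]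

theorem ch_em0 (d : Data ι) {k : Fin 3} (h : k.val = 0) (l : ι) (s : Bool) :
    ch d (.em k l s : Ctl ι m) = [] := dif_pos h

theorem ch_em1 (d : Data ι) {k : Fin 3} (h : k.val ≠ 0) (l : ι) (s : Bool) :
    ch d (.em k l s : Ctl ι m) = [.em ⟨k.val - 1, by omega⟩ l s] := dif_neg h

theorem ch_loop0 (d : Data ι) (hr : 0 < m + 1) :
    ch d (.loop ⟨0, hr⟩ : Ctl ι m) = [.km, .kp] ++ EE d 0 := rfl

theorem ch_loop1 (d : Data ι) (r : ℕ) (hr : r + 1 < m + 1) :
    ch d (.loop ⟨r + 1, hr⟩ : Ctl ι m) = [.loop ⟨r, by omega⟩] ++ EE d (r + 1) := rfl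

/-- rank -/
def rk : Ctl ι m → ℕ
  | .b => 0
  | .km => 0
  | .kp => 0
  | .loop r => 4 + r.val
  | .em k _ _ => k.val + 1

theorem mem_emit {k : Fin 3} {L : List ι} {v : ι → ℤ} {c : Ctl ι m} (h : c ∈ emit k L v) :
    ∃ l s, c = .em k l s := by
  unfold emit at h
  rw [List.mem_flatMap] at h
  obtain ⟨l, _, h⟩ := h
  exact ⟨l, _, List.eq_of_mem_replicate h⟩

theorem mem_EE {d : Data ι} {r : ℕ} {c : Ctl ι m} (h : c ∈ EE d r) : ∃ k l s, c = .em k l s := by
  unfold EE at h
  rw [List.mem_append, List.mem_append] at h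
  rcases h with h | h | h <;> obtain ⟨l, s, rfl⟩ := mem_emit h <;> exact ⟨_, l, s, rfl⟩

theorem rk_ch (d : Data ι) (c : Ctl ι m) : ∀ c' ∈ ch d c, rk c' < rk c := by
  intro c' h
  cases c with
  | b => simp [ch] at h
  | km => simp [ch] at h
  | kp => simp [ch] at h
  | loop r =>
    obtain ⟨r, hr⟩ := r
    cases r with
    | zero =>
      rw [ch_loop0, List.mem_append] at h
      rcases h with h | h
      · simp only [List.mem_cons, List.not_mem_nil, or_false] at h
        rcases h with rfl | rfl <;> simp [rk]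
      · obtain ⟨k, l, s, rfl⟩ := mem_EE h
        simp only [rk]
        omega
    | succ r =>
      rw [ch_loop1, List.mem_append] at h
      rcases h with h | h
      · simp only [List.mem_singleton] at h
        subst h
        simp only [rk]
        omega
      · obtain ⟨k, l, s, rfl⟩ := mem_EE h
        simp only [rk]
        omega
  | em k l s =>
    by_cases h0 : k.val = 0
    · rw [ch_em0 d h0] at h
      simp at h
    · rw [ch_em1 d h0] at h
      simp only [List.mem_singleton] at h
      subst h
      simp only [rk]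
      omega

theorem isEm_HI (d : Data ι) (j : ℕ) {w : List (Ctl ι m ⊕ Bool)} (h : ∀ x ∈ w, IsEm x) :
    ∀ x ∈ HI (ch d) j w, IsEm x := by
  induction j generalizing w with
  | zero => exact h
  | succ j ih =>
    rw [HI_succ]
    refine ih ?_
    intro x hx
    rw [List.mem_flatMap] at hx
    obtain ⟨y, hy, hx⟩ := hx
    have hye := h y hy
    rcases y with c | b
    · cases c with
      | em k l s =>
        unfold h0 at hx
        rw [List.mem_cons, List.mem_append] at hx
        rcases hx with rfl | hx | hx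
        · trivial
        · simp only [ff, List.mem_cons, List.not_mem_nil, or_false] at hx
          rcases hx with rfl | rfl <;> trivial
        · rw [List.mem_flatMap] at hx
          obtain ⟨c', hc', hx⟩ := hx
          by_cases h0 : k.val = 0
          · rw [ch_em0 d h0] at hc'
            simp at hc'
          · rw [ch_em1 d h0] at hc'
            simp only [List.mem_singleton] at hc'
            subst hc'
            simp only [ff, List.mem_cons, List.not_mem_nil, or_false] at hx
            rcases hx with rfl | rfl | rfl <;> trivial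
      | _ => exact hye.elim
    · unfold h0 at hx
      rw [List.mem_map] at hx
      obtain ⟨b', -, rfl⟩ := hx
      trivial

theorem wt_ff (d : Data ι) (j : ℕ) (l : Option ι) :
    wt (HI (ch d) j (ff : List (Ctl ι m ⊕ Bool))) l = 0 := by
  have : (ff : List (Ctl ι m ⊕ Bool)) = [false, true].map Sum.inr := rfl
  rw [this, HI_fill]
  exact wt_fill _ _

theorem wt_flatMap (d : Data ι) (j : ℕ) (cs : List (Ctl ι m)) (l : Option ι) :
    wt (cs.flatMap (fun c => HI (ch d) j [Sum.inl c] ++ HI (ch d) j ff)) l =
      (cs.map (fun c => wt (HI (ch d) j [Sum.inl c]) l)).sum := by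
  induction cs with
  | nil => rfl
  | cons c cs ih =>
    rw [List.flatMap_cons, wt_append, wt_append, wt_ff, ih, List.map_cons, List.sum_cons]
    ring

theorem wt_stage (d : Data ι) (j : ℕ) (c : Ctl ι m) (l : Option ι) :
    wt (HI (ch d) (j + 1) [Sum.inl c]) l = wt (HI (ch d) j [Sum.inl c]) l +
      ((ch d c).map (fun c => wt (HI (ch d) j [Sum.inl c]) l)).sum := by
  rw [HI_stage, wt_append, wt_append, wt_ff, wt_flatMap]
  ring

/-- sign -/
def sg (s : Bool) : ℤ := if s then 1 else -1

theorem wt_em (d : Data ι) (j : ℕ) (k : Fin 3) (i : ι) (s : Bool) (l : ι) :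
    wt (HI (ch d) j ([Sum.inl (.em k i s)] : List (Ctl ι m ⊕ Bool))) (some l) =
      if l = i then sg s * (j.choose k.val : ℤ) else 0 := by
  induction j generalizing k with
  | zero =>
    rw [HI_zero, wt_cons, wt_nil]
    unfold wl om sg
    by_cases hk : k = 0
    · subst hk
      by_cases hl : l = i <;> simp [hl]
    · have hk' : k.val ≠ 0 := fun h => hk (Fin.ext h)
      have : Nat.choose 0 k.val = 0 := Nat.choose_eq_zero_of_lt (by omega)
      simp [hk, this]
  | succ j ih =>
    rw [wt_stage, ih]
    by_cases hk : k.val = 0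
    · rw [ch_em0 d hk]
      simp [hk]
    · rw [ch_em1 d hk]
      simp only [List.map_cons, List.map_nil, List.sum_cons, List.sum_nil, add_zero]
      rw [ih]
      simp only
      obtain ⟨k', hk'⟩ := Nat.exists_eq_succ_of_ne_zero hk
      rw [hk', Nat.succ_sub_one, Nat.succ_eq_add_one, Nat.choose_succ_succ]
      by_cases hl : l = i
      · simp only [hl, if_true]
        push_cast
        ring
      · simp [hl]

theorem sum_replicate_em (d : Data ι) (j : ℕ) (k : Fin 3) (i : ι) (v : ℤ) (l : ι) :
    ((List.replicate v.natAbs (Ctl.em k i (decide (0 ≤ v)))).map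
      (fun c => wt (HI (ch d) j ([Sum.inl c] : List (Ctl ι m ⊕ Bool))) (some l))).sum =
      if l = i then v * (j.choose k.val : ℤ) else 0 := by
  rw [List.map_replicate, List.sum_replicate, wt_em]
  by_cases hl : l = i
  · rw [if_pos hl, if_pos hl]
    by_cases hv : 0 ≤ v
    · have e : ((v.natAbs : ℕ) : ℤ) = v := Int.natAbs_of_nonneg hv
      simp only [sg, hv, decide_true, if_true, nsmul_eq_mul]
      rw [e]
      ring
    · have e : ((v.natAbs : ℕ) : ℤ) = -v := by omega
      simp only [sg, hv, decide_false, nsmul_eq_mul]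
      rw [e]
      simp
  · rw [if_neg hl, if_neg hl, smul_zero]

theorem sum_emit (d : Data ι) (j : ℕ) (k : Fin 3) (L : List ι) (hL : L.Nodup) (v : ι → ℤ)
    (l : ι) (hl : l ∈ L) :
    ((emit k L v).map
      (fun c => wt (HI (ch d) j ([Sum.inl c] : List (Ctl ι m ⊕ Bool))) (some l))).sum =
      v l * (j.choose k.val : ℤ) := by
  have key : ∀ L : List ι, L.Nodup → ((emit k L v).map
      (fun c => wt (HI (ch d) j ([Sum.inl c] : List (Ctl ι m ⊕ Bool))) (some l))).sum =
      if l ∈ L then v l * (j.choose k.val : ℤ) else 0 := by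
    intro L
    induction L with
    | nil => intro _; simp [emit]
    | cons i L ih =>
      intro hn
      rw [List.nodup_cons] at hn
      unfold emit
      rw [List.flatMap_cons, List.map_append, List.sum_append, sum_replicate_em]
      have := ih hn.2
      unfold emit at this
      rw [this]
      by_cases h1 : l = i
      · subst h1
        simp [hn.1]
      · simp [h1]
  rw [key L hL, if_pos hl]

theorem flag_em (d : Data ι) (j : ℕ) {cs : List (Ctl ι m)}
    (h : ∀ c ∈ cs, ∃ k l s, c = Ctl.em k l s) :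
    (cs.map (fun c => wt (HI (ch d) j ([Sum.inl c] : List (Ctl ι m ⊕ Bool))) none)).sum = 0 := by
  induction cs with
  | nil => rfl
  | cons c cs ih =>
    rw [List.map_cons, List.sum_cons, ih (fun c hc => h c (List.mem_cons_of_mem _ hc))]
    obtain ⟨k, l, s, rfl⟩ := h c List.mem_cons_self
    have : ∀ x ∈ HI (ch d) j ([Sum.inl (.em k l s)] : List (Ctl ι m ⊕ Bool)), IsEm x :=
      isEm_HI d j (fun x hx => by rw [List.mem_singleton] at hx; subst hx; trivial)
    rw [wt_none_of_neut (fun x hx => (this x hx).neut)]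
    rfl

/-- the functions realised -/
def FF (d : Data ι) (r : ℕ) (x : ℕ) (l : ι) : ℤ := d.α r l * (x : ℤ) ^ 2 + d.β r l * x

theorem wt_b (d : Data ι) (j : ℕ) (l : Option ι) :
    wt (HI (ch d) j ([Sum.inl .b] : List (Ctl ι m ⊕ Bool))) l = if l = none then 1 else 0 := by
  induction j with
  | zero => rw [HI_zero, wt_cons, wt_nil]; simp [wl, om]
  | succ j ih => rw [wt_stage, ih]; simp [ch]

theorem wt_km (d : Data ι) (j : ℕ) (l : Option ι) :
    wt (HI (ch d) j ([Sum.inl .km] : List (Ctl ι m ⊕ Bool))) l = if l = none then -1 else 0 := by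
  induction j with
  | zero => rw [HI_zero, wt_cons, wt_nil]; simp [wl, om]
  | succ j ih => rw [wt_stage, ih]; simp [ch]

theorem wt_kp (d : Data ι) (j : ℕ) (l : Option ι) :
    wt (HI (ch d) j ([Sum.inl .kp] : List (Ctl ι m ⊕ Bool))) l = if l = none then 1 else 0 := by
  induction j with
  | zero => rw [HI_zero, wt_cons, wt_nil]; simp [wl, om]
  | succ j ih => rw [wt_stage, ih]; simp [ch]

theorem wt_loop_none (d : Data ι) (j : ℕ) (r : ℕ) (hr : r < m + 1) :
    wt (HI (ch d) j ([Sum.inl (.loop ⟨r, hr⟩)] : List (Ctl ι m ⊕ Bool))) none = 0 := by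
  induction r generalizing j with
  | zero =>
    induction j with
    | zero => rw [HI_zero, wt_cons, wt_nil]; simp [wl, om]
    | succ j ihj =>
      rw [wt_stage, ihj, ch_loop0, List.map_append, List.sum_append,
        flag_em d j (fun c hc => mem_EE hc)]
      simp [wt_km, wt_kp]
  | succ r ih =>
    induction j with
    | zero => rw [HI_zero, wt_cons, wt_nil]; simp [wl, om]
    | succ j ihj =>
      rw [wt_stage, ihj, ch_loop1, List.map_append, List.sum_append,
        flag_em d j (fun c hc => mem_EE hc)]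
      have := ih j (by omega)
      simp [this]

theorem choose_two (j : ℕ) : (2 : ℤ) * (j.choose 2 : ℤ) + j = (j : ℤ) ^ 2 := by
  have h := Nat.triangle_succ j
  induction j with
  | zero => simp
  | succ j ih =>
    rw [Nat.choose_succ_succ, Nat.choose_one_right]
    have := ih (Nat.triangle_succ j)
    push_cast
    linarith [this]

theorem wt_loop (d : Data ι) (hL : d.L.Nodup) (j : ℕ) (r : ℕ) (hr : r < m + 1) (l : ι)
    (hl : l ∈ d.L) :
    wt (HI (ch d) j ([Sum.inl (.loop ⟨r, hr⟩)] : List (Ctl ι m ⊕ Bool))) (some l) =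
      FF d r j l := by
  have hEE : ∀ (r j : ℕ), ((EE d r).map (fun c => wt (HI (ch d) j
      ([Sum.inl c] : List (Ctl ι m ⊕ Bool))) (some l))).sum = (d.α r l + d.β r l) +
      ((2 * d.α r l - (prev d.α r l + prev d.β r l)) * j +
        (-2 * prev d.α r l) * (j.choose 2 : ℤ)) := by
    intro r j
    unfold EE
    rw [List.map_append, List.map_append, List.sum_append, List.sum_append,
      sum_emit d j 0 d.L hL _ l hl, sum_emit d j 1 d.L hL _ l hl, sum_emit d j 2 d.L hL _ l hl]
    simp
  induction r generalizing j with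
  | zero =>
    induction j with
    | zero => rw [HI_zero, wt_cons, wt_nil]; simp [wl, om, FF]
    | succ j ihj =>
      rw [wt_stage, ihj, ch_loop0, List.map_append, List.sum_append, hEE]
      simp only [List.map_cons, List.map_nil, List.sum_cons, List.sum_nil, wt_km, wt_kp]
      simp only [reduceCtorEq, if_false, prev, if_true, FF]
      push_cast
      simp only [Pi.zero_apply]
      ring
  | succ r ih =>
    induction j with
    | zero => rw [HI_zero, wt_cons, wt_nil]; simp [wl, om, FF]
    | succ j ihj =>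
      rw [wt_stage, ihj, ch_loop1, List.map_append, List.sum_append, hEE]
      have h1 := ih j (by omega)
      simp only [Nat.add_eq_zero_iff, one_ne_zero, and_false, Nat.add_sub_cancel,
        List.map_cons, List.map_nil, List.sum_cons, List.sum_nil, h1, prev, if_false]
      have h2 := choose_two j
      simp only [FF]
      push_cast
      linear_combination (-(d.α r l)) * h2

/-! ### Check weights -/

theorem HI_leaf (d : Data ι) (j : ℕ) {c : Ctl ι m} (hc : ch d c = []) :
    ∃ v : List Bool, HI (ch d) j [Sum.inl c] = Sum.inl c :: v.map Sum.inr := by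
  induction j with
  | zero => exact ⟨[], rfl⟩
  | succ j ih =>
    obtain ⟨v, hv⟩ := ih
    have : (ff : List (Ctl ι m ⊕ Bool)) = [false, true].map Sum.inr := rfl
    refine ⟨v ++ thIt j [false, true], ?_⟩
    rw [HI_stage, hv, hc, List.flatMap_nil, List.append_nil, this, HI_fill, List.map_append]
    rfl

theorem neut_fill {v : List Bool} : ∀ x ∈ (v.map Sum.inr : List (Ctl ι m ⊕ Bool)), Neut x := by
  intro x hx
  rw [List.mem_map] at hx
  obtain ⟨b, -, rfl⟩ := hx
  rfl

theorem neut_ff (d : Data ι) (j : ℕ) :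
    ∀ x ∈ HI (ch d) j (ff : List (Ctl ι m ⊕ Bool)), Neut x := by
  have : (ff : List (Ctl ι m ⊕ Bool)) = [false, true].map Sum.inr := rfl
  rw [this, HI_fill]
  exact neut_fill

theorem CW_skip {A B : List (Ctl ι m ⊕ Bool)} (hA : ∀ x ∈ A, Neut x)
    (hA' : ∀ i, wt A (some i) = 0) : CW (A ++ B) = CW B := by
  rw [CW_append (wt_none_of_neut hA), CW_neut hA, Set.empty_union]
  ext g
  constructor
  · rintro ⟨g', hg', h⟩
    have : g = g' := funext fun i => by rw [h i, hA' i, zero_add]
    rwa [this]
  · intro hg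
    exact ⟨g, hg, fun i => by rw [hA' i, zero_add]⟩

theorem CW_append_neut {A B : List (Ctl ι m ⊕ Bool)} (hA : wt A none = 0)
    (hB : ∀ x ∈ B, Neut x) : CW (A ++ B) = CW A := by
  rw [CW_append hA, CW_neut hB]
  ext g
  constructor
  · rintro (h | ⟨g', hg', -⟩)
    · exact h
    · exact hg'.elim
  · intro h; exact Or.inl h

theorem neut_EE (d : Data ι) (r j : ℕ) : ∀ x ∈ (EE d r : List (Ctl ι m)).flatMap
    (fun c => HI (ch d) j [Sum.inl c] ++ HI (ch d) j ff), Neut x := by
  intro x hx
  rw [List.mem_flatMap] at hx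
  obtain ⟨c, hc, hx⟩ := hx
  rw [List.mem_append] at hx
  rcases hx with hx | hx
  · obtain ⟨k, l, s, rfl⟩ := mem_EE hc
    exact (isEm_HI d j (fun x hx => by rw [List.mem_singleton] at hx; subst hx; trivial) x hx).neut
  · exact neut_ff d j x hx

theorem CW_check (v v' : List Bool) :
    CW (Sum.inl .km :: (v.map Sum.inr ++ (Sum.inl .kp :: v'.map Sum.inr)) :
      List (Ctl ι m ⊕ Bool)) = {g | ∀ i, g i = 0} := by
  have e0 : ∀ (u : List Bool) (q : ℕ) (l : Option ι),
      wt ((u.map Sum.inr : List (Ctl ι m ⊕ Bool)).take q) l = 0 := by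
    intro u q l
    rw [← List.map_take]
    exact wt_fill _ _
  ext g
  constructor
  · rintro ⟨p, h1, h2⟩
    cases p with
    | zero => rw [List.take_zero, wt_nil] at h1; exact absurd h1 (by norm_num)
    | succ p =>
      intro i
      have h3 := h2 i
      rw [List.take_succ_cons, wt_cons, List.take_append, wt_append, e0] at h3
      have h4 : wt ((Sum.inl .kp :: v'.map Sum.inr : List (Ctl ι m ⊕ Bool)).take
          (p - (v.map Sum.inr : List (Ctl ι m ⊕ Bool)).length)) (some i) = 0 := by
        cases (p - (v.map Sum.inr : List (Ctl ι m ⊕ Bool)).length) with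
        | zero => rfl
        | succ q =>
          rw [List.take_succ_cons, wt_cons, e0]
          simp [wl, om]
      rw [h4] at h3
      rw [← h3]
      simp [wl, om]
  · intro hg
    refine ⟨1, ?_, ?_⟩
    · simp [wt, wl, om]
    · intro i
      rw [hg i]
      simp [wt, wl, om]

/-- check weights of the loops -/
def ZZ (d : Data ι) : ℕ → ℕ → Set (ι → ℤ)
  | 0, j => {g | ∃ x < j, ∀ l, g l = FF d 0 x l}
  | r + 1, j => {g | ∃ x < j, ∃ g' ∈ ZZ d r x, ∀ l, g l = FF d (r + 1) x l + g' l}

theorem CW_loop (d : Data ι) (hL : d.L.Nodup) (hall : ∀ l, l ∈ d.L) (j : ℕ) (r : ℕ)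
    (hr : r < m + 1) :
    CW (HI (ch d) j ([Sum.inl (.loop ⟨r, hr⟩)] : List (Ctl ι m ⊕ Bool))) = ZZ d r j := by
  induction r generalizing j with
  | zero =>
    induction j with
    | zero =>
      rw [HI_zero, CW_neut (fun x hx => by
        rw [List.mem_singleton] at hx; subst hx; rfl)]
      ext g
      constructor
      · intro h; exact h.elim
      · rintro ⟨x, hx, -⟩; omega
    | succ j ihj =>
      rw [HI_stage, CW_append (wt_loop_none d j 0 hr), ihj]
      obtain ⟨v, hv⟩ := HI_leaf (m := m) d j (c := .km) rfl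
      obtain ⟨v', hv'⟩ := HI_leaf (m := m) d j (c := .kp) rfl
      have hff : ∃ u : List Bool, HI (ch d) j (ff : List (Ctl ι m ⊕ Bool)) = u.map Sum.inr := by
        have : (ff : List (Ctl ι m ⊕ Bool)) = [false, true].map Sum.inr := rfl
        exact ⟨_, by rw [this, HI_fill]⟩
      obtain ⟨u, hu⟩ := hff
      have key : CW (HI (ch d) j ff ++ (ch d (.loop ⟨0, hr⟩ : Ctl ι m)).flatMap
          (fun c => HI (ch d) j [Sum.inl c] ++ HI (ch d) j ff)) = {g | ∀ i, g i = 0} := by
        rw [CW_skip (neut_ff d j) (fun i => wt_ff d j _), ch_loop0, List.flatMap_append]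
        have e : ([.km, .kp] : List (Ctl ι m)).flatMap
            (fun c => HI (ch d) j [Sum.inl c] ++ HI (ch d) j ff) =
            Sum.inl .km :: ((v ++ u).map Sum.inr ++ (Sum.inl .kp :: (v' ++ u).map Sum.inr)) := by
          simp [hv, hv', hu]
        rw [e, CW_append_neut _ (neut_EE d 0 j), CW_check]
        rw [wt_cons, wt_append, wt_cons, wt_fill, wt_fill]
        simp [wl, om]
      rw [key]
      ext g
      constructor
      · rintro (⟨x, hx, hg⟩ | ⟨g', hg', hg⟩)
        · exact ⟨x, by omega, hg⟩
        · refine ⟨j, by omega, fun l => ?_⟩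
          rw [hg l, wt_loop d hL j 0 hr l (hall l), hg' l, add_zero]
      · rintro ⟨x, hx, hg⟩
        by_cases h : x < j
        · exact Or.inl ⟨x, h, hg⟩
        · obtain rfl : x = j := by omega
          refine Or.inr ⟨fun _ => 0, fun _ => rfl, fun l => ?_⟩
          rw [hg l, wt_loop d hL x 0 hr l (hall l), add_zero]
  | succ r ih =>
    induction j with
    | zero =>
      rw [HI_zero, CW_neut (fun x hx => by
        rw [List.mem_singleton] at hx; subst hx; rfl)]
      ext g
      constructor
      · intro h; exact h.elim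
      · rintro ⟨x, hx, -⟩; omega
    | succ j ihj =>
      rw [HI_stage, CW_append (wt_loop_none d j (r + 1) hr), ihj]
      have key : CW (HI (ch d) j ff ++ (ch d (.loop ⟨r + 1, hr⟩ : Ctl ι m)).flatMap
          (fun c => HI (ch d) j [Sum.inl c] ++ HI (ch d) j ff)) = ZZ d r j := by
        rw [CW_skip (neut_ff d j) (fun i => wt_ff d j _), ch_loop1, List.flatMap_append,
          List.flatMap_singleton, List.append_assoc,
          CW_append_neut (wt_loop_none d j r (by omega)), ih]
        intro x hx
        rw [List.mem_append] at hx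
        rcases hx with hx | hx
        · exact neut_ff d j x hx
        · exact neut_EE d _ j x hx
      rw [key]
      ext g
      constructor
      · rintro (⟨x, hx, g', hg', hg⟩ | ⟨g', hg', hg⟩)
        · exact ⟨x, by omega, g', hg', hg⟩
        · refine ⟨j, by omega, g', hg', fun l => ?_⟩
          rw [hg l, wt_loop d hL j (r + 1) hr l (hall l)]
      · rintro ⟨x, hx, g', hg', hg⟩
        by_cases h : x < j
        · exact Or.inl ⟨x, h, g', hg', hg⟩
        · obtain rfl : x = j := by omega
          refine Or.inr ⟨g', hg', fun l => ?_⟩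
          rw [hg l, wt_loop d hL x (r + 1) hr l (hall l)]

theorem wt_HI_map (d : Data ι) (j : ℕ) (cs : List (Ctl ι m)) (l : Option ι) :
    wt (HI (ch d) j (cs.map Sum.inl)) l =
      (cs.map (fun c => wt (HI (ch d) j [Sum.inl c]) l)).sum := by
  induction cs with
  | nil => rw [List.map_nil, HI_nil]; rfl
  | cons c cs ih =>
    have e : ((c :: cs).map Sum.inl : List (Ctl ι m ⊕ Bool)) =
        [Sum.inl c] ++ cs.map Sum.inl := rfl
    rw [e, HI_append, wt_append, ih, List.map_cons, List.sum_cons]

/-- the constants part of the base word -/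
def emPart (d : Data ι) (γ : ι → ℤ) (l0 : ι) (ν : ℕ) : List (Ctl ι m) :=
  emit 0 d.L γ ++ List.replicate ν (.em 0 l0 true)

/-- the base word -/
def Yw (m : ℕ) (d : Data ι) (γ : ι → ℤ) (l0 : ι) (ν : ℕ) : List (Ctl ι m ⊕ Bool) :=
  Sum.inl .b :: ((emPart d γ l0 ν).map Sum.inl ++ [Sum.inl (.loop ⟨m, Nat.lt_succ_self m⟩)])

/-- the walk returns to zero exactly at solutions -/
theorem walk (d : Data ι) (hL : d.L.Nodup) (hall : ∀ l, l ∈ d.L) (γ : ι → ℤ) (l0 : ι) (ν j : ℕ) :
    (∃ p, 1 ≤ p ∧ ∀ l, wt ((HI (ch d) j (Yw m d γ l0 ν)).take p) l = 0) ↔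
      ∃ g ∈ ZZ d m j, ∀ l, γ l + (if l = l0 then (ν : ℤ) else 0) + g l = 0 := by
  obtain ⟨v, hv⟩ := HI_leaf (m := m) d j (c := .b) rfl
  have e : HI (ch d) j (Yw m d γ l0 ν) = Sum.inl .b :: (v.map Sum.inr ++
      (HI (ch d) j ((emPart d γ l0 ν).map Sum.inl) ++
        HI (ch d) j [Sum.inl (.loop ⟨m, Nat.lt_succ_self m⟩)])) := by
    have e1 : Yw m d γ l0 ν = [Sum.inl .b] ++ ((emPart d γ l0 ν).map Sum.inl ++
      [Sum.inl (.loop ⟨m, Nat.lt_succ_self m⟩)]) := rfl
    rw [e1, HI_append, HI_append, hv]
    rfl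
  have hem : ∀ x ∈ HI (ch d) j ((emPart d γ l0 ν).map Sum.inl : List (Ctl ι m ⊕ Bool)),
      Neut x := by
    intro x hx
    refine (isEm_HI d j ?_ x hx).neut
    intro y hy
    rw [List.mem_map] at hy
    obtain ⟨c, hc, rfl⟩ := hy
    unfold emPart at hc
    rw [List.mem_append] at hc
    rcases hc with hc | hc
    · obtain ⟨l, s, rfl⟩ := mem_emit hc
      trivial
    · rw [List.eq_of_mem_replicate hc]
      trivial
  have hwt : ∀ l, wt (HI (ch d) j ((emPart d γ l0 ν).map Sum.inl : List (Ctl ι m ⊕ Bool)))
      (some l) = γ l + (if l = l0 then (ν : ℤ) else 0) := by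
    intro l
    rw [wt_HI_map]
    unfold emPart
    rw [List.map_append, List.sum_append, sum_emit d j 0 d.L hL γ l (hall l), List.map_replicate,
      List.sum_replicate, wt_em]
    by_cases hl : l = l0
    · simp [hl, sg]
    · simp [hl]
  have hCW : CW (v.map Sum.inr ++ (HI (ch d) j ((emPart d γ l0 ν).map Sum.inl) ++
        HI (ch d) j [Sum.inl (.loop ⟨m, Nat.lt_succ_self m⟩)]) : List (Ctl ι m ⊕ Bool)) =
      {g | ∃ g' ∈ ZZ d m j, ∀ i, g i = γ i + (if i = l0 then (ν : ℤ) else 0) + g' i} := by
    rw [CW_skip neut_fill (fun i => wt_fill _ _), CW_append (wt_none_of_neut hem), CW_neut hem,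
      Set.empty_union, CW_loop d hL hall]
    simp only [hwt]
  have h0 : (∃ p, 1 ≤ p ∧ ∀ l, wt ((HI (ch d) j (Yw m d γ l0 ν)).take p) l = 0) ↔
      (fun _ => 0 : ι → ℤ) ∈ CW (v.map Sum.inr ++ (HI (ch d) j ((emPart d γ l0 ν).map Sum.inl) ++
        HI (ch d) j [Sum.inl (.loop ⟨m, Nat.lt_succ_self m⟩)]) : List (Ctl ι m ⊕ Bool)) := by
    rw [e]
    constructor
    · rintro ⟨p, hp, h⟩
      obtain ⟨q, rfl⟩ := Nat.exists_eq_succ_of_ne_zero (by omega : p ≠ 0)
      refine ⟨q, ?_, fun i => ?_⟩
      · have := h none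
        rw [List.take_succ_cons, wt_cons] at this
        have h1 : wl (Sum.inl .b : Ctl ι m ⊕ Bool) none = 1 := by simp [wl, om]
        rw [h1] at this
        linarith
      · have := h (some i)
        rw [List.take_succ_cons, wt_cons] at this
        have h1 : wl (Sum.inl .b : Ctl ι m ⊕ Bool) (some i) = 0 := by simp [wl, om]
        rw [h1] at this
        linarith
    · rintro ⟨q, h1, h2⟩
      refine ⟨q + 1, by omega, fun l => ?_⟩
      rw [List.take_succ_cons, wt_cons]
      cases l with
      | none => rw [h1]; simp [wl, om]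
      | some i => rw [h2 i]; simp [wl, om]
  rw [h0, hCW]
  constructor
  · rintro ⟨g', hg', h⟩
    exact ⟨g', hg', fun l => (h l).symm⟩
  · rintro ⟨g', hg', h⟩
    exact ⟨g', hg', fun l => (h l).symm⟩

theorem ZZ_mono (d : Data ι) (r : ℕ) {j j' : ℕ} (h : j ≤ j') : ZZ d r j ⊆ ZZ d r j' := by
  intro g hg
  cases r with
  | zero =>
    obtain ⟨x, hx, hg⟩ := hg
    exact ⟨x, by omega, hg⟩
  | succ r =>
    obtain ⟨x, hx, hg⟩ := hg
    exact ⟨x, by omega, hg⟩

end Pool.Agent.Helper437.AbPow
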